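import Pool.Agent.P8H81.LP.Defs

set_option autoImplicit false

/-!
Task SUP of the project H111-CP: superadditivity of the mean of the free energy.
-/

open MeasureTheory ProbabilityTheory Filter Finset

namespace Pool.Agent.P8H81.LP.SupAux

variable {hc : (Fin 2 → ℤ) → ℝ}

open Pool.Agent.P8H81.LP

/-! ### paths -/

theorem pos_zero {N : ℕ} (σ : Fin N → Fin 2 × Bool) : pos σ 0 = 0 := by
  unfold pos
  apply Finset.sum_eq_zero
  intro k hk
  rw [Finset.mem_filter] at hk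
  omega

theorem pos_cons {N : ℕ} (e : Fin 2 × Bool) (σ : Fin N → Fin 2 × Bool) (n : ℕ) :
    pos (Fin.cons e σ : Fin (N + 1) → Fin 2 × Bool) (n + 1) = stp e + pos σ n := by
  unfold pos
  rw [Finset.sum_filter, Finset.sum_filter, Fin.sum_univ_succ]
  simp

theorem sum_Icc_one (N : ℕ) (f : ℕ → ℝ) :
    ∑ n ∈ Icc 1 N, f n = ∑ i ∈ range N, f (i + 1) := by
  induction N with
  | zero => simp
  | succ N ih => rw [Finset.sum_Icc_succ_top (by omega), ih, Finset.sum_range_succ]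

theorem sum_Icc_split (N : ℕ) (f : ℕ → ℝ) :
    ∑ n ∈ Icc 1 (N + 1), f n = f 1 + ∑ n ∈ Icc 1 N, f (n + 1) := by
  rw [sum_Icc_one, sum_Icc_one, Finset.sum_range_succ', add_comm]

/-- energy of the first `N` steps -/
noncomputable def SS (N : ℕ) (V : ℕ → (Fin 2 → ℤ) → ℝ) (x : Fin 2 → ℤ)
    (σ : Fin N → Fin 2 × Bool) : ℝ := ∑ n ∈ Icc 1 N, V n (x + pos σ n)

theorem Wr_add (M : ℕ) (N : ℕ) : ∀ (V : ℕ → (Fin 2 → ℤ) → ℝ) (x : Fin 2 → ℤ),
    Wr (N + M) V x = ((4 : ℝ) ^ N)⁻¹ * ∑ σ : Fin N → Fin 2 × Bool,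
      Real.exp (SS N V x σ) * Wr M (fun n => V (n + N)) (x + pos σ N) := by
  induction N with
  | zero =>
    intro V x
    rw [Nat.zero_add, pow_zero, inv_one, one_mul, Fintype.sum_unique]
    unfold SS
    rw [pos_zero, add_zero]
    simp
  | succ N ih =>
    intro V x
    rw [Nat.add_right_comm]
    show (1 / 4 : ℝ) * ∑ e : Fin 2 × Bool,
      Real.exp (V 1 (x + stp e)) * Wr (N + M) (fun n => V (n + 1)) (x + stp e) = _
    have hr : ∀ g : (Fin (N + 1) → Fin 2 × Bool) → ℝ, ((4 : ℝ) ^ (N + 1))⁻¹ * ∑ σ, g σ =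
        (1 / 4 : ℝ) * ∑ e : Fin 2 × Bool, (((4 : ℝ) ^ N)⁻¹ *
          ∑ σ : Fin N → Fin 2 × Bool, g (Fin.cons e σ)) := by
      intro g
      rw [← (Fin.consEquiv (fun _ : Fin (N + 1) => Fin 2 × Bool)).sum_comp, Fintype.sum_prod_type,
        ← Finset.mul_sum, ← mul_assoc, pow_succ, mul_inv, mul_comm (((4 : ℝ) ^ N)⁻¹) (4 : ℝ)⁻¹,
        one_div]
      rfl
    rw [hr]
    refine congrArg (fun t : ℝ => (1 / 4 : ℝ) * t) (Finset.sum_congr rfl fun e _ => ?_)
    rw [ih, mul_left_comm, Finset.mul_sum]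
    refine congrArg (fun t : ℝ => ((4 : ℝ) ^ N)⁻¹ * t) (Finset.sum_congr rfl fun σ _ => ?_)
    show _ = Real.exp (SS (N + 1) V x (Fin.cons e σ)) *
      Wr M (fun n => V (n + (N + 1))) (x + pos (Fin.cons e σ : Fin (N + 1) → Fin 2 × Bool) (N + 1))
    have h1 : SS (N + 1) V x (Fin.cons e σ) =
        V 1 (x + stp e) + SS N (fun n => V (n + 1)) (x + stp e) σ := by
      unfold SS
      rw [sum_Icc_split, pos_cons, pos_zero, add_zero]
      congr 1
      refine Finset.sum_congr rfl fun n _ => ?_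
      rw [pos_cons, add_assoc]
    rw [h1, Real.exp_add, mul_assoc, pos_cons, add_assoc]
    have h2 : (fun n => V (n + (N + 1))) = fun n => V (n + N + 1) := by
      funext n; rw [add_assoc]
    rw [h2]

theorem Wr_path (N : ℕ) (V : ℕ → (Fin 2 → ℤ) → ℝ) (x : Fin 2 → ℤ) :
    Wr N V x = ((4 : ℝ) ^ N)⁻¹ * ∑ σ : Fin N → Fin 2 × Bool, Real.exp (SS N V x σ) := by
  have h := Wr_add 0 N V x
  rw [Nat.add_zero] at h
  rw [h]
  congr 1
  refine Finset.sum_congr rfl fun σ _ => ?_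
  show _ * (1 : ℝ) = _
  rw [mul_one]

theorem Wr_congr (N : ℕ) : ∀ (V V' : ℕ → (Fin 2 → ℤ) → ℝ) (x : Fin 2 → ℤ),
    (∀ n, 1 ≤ n → n ≤ N → V n = V' n) → Wr N V x = Wr N V' x := by
  intro V V' x h
  rw [Wr_path, Wr_path]
  congr 1
  refine Finset.sum_congr rfl fun σ _ => ?_
  congr 1
  unfold SS
  refine Finset.sum_congr rfl fun n hn => ?_
  rw [Finset.mem_Icc] at hn
  rw [h n hn.1 hn.2]

theorem Wr_pos (N : ℕ) (V : ℕ → (Fin 2 → ℤ) → ℝ) (x : Fin 2 → ℤ) : 0 < Wr N V x := by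
  rw [Wr_path]
  have : 0 < ∑ σ : Fin N → Fin 2 × Bool, Real.exp (SS N V x σ) :=
    Finset.sum_pos (fun _ _ => Real.exp_pos _) Finset.univ_nonempty
  positivity

/-- translation -/
theorem Wr_trans (N : ℕ) (V : ℕ → (Fin 2 → ℤ) → ℝ) (z : Fin 2 → ℤ) :
    Wr N V z = Wr N (fun n x => V n (x + z)) 0 := by
  rw [Wr_path, Wr_path]
  congr 1
  refine Finset.sum_congr rfl fun σ _ => ?_
  congr 1
  unfold SS
  refine Finset.sum_congr rfl fun n _ => ?_
  rw [zero_add, add_comm]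

/-- relative weight of a path -/
noncomputable def qq (β : ℝ) (N : ℕ) (σ : Fin N → Fin 2 × Bool) (w : ℕ → (Fin 2 → ℤ) → ℝ) : ℝ :=
  Real.exp (SS N (Vb β w) 0 σ) / ∑ τ : Fin N → Fin 2 × Bool, Real.exp (SS N (Vb β w) 0 τ)

theorem den_pos (β : ℝ) (N : ℕ) (w : ℕ → (Fin 2 → ℤ) → ℝ) :
    0 < ∑ τ : Fin N → Fin 2 × Bool, Real.exp (SS N (Vb β w) 0 τ) :=
  Finset.sum_pos (fun _ _ => Real.exp_pos _) Finset.univ_nonempty

theorem qq_pos (β : ℝ) (N : ℕ) (σ : Fin N → Fin 2 × Bool) (w : ℕ → (Fin 2 → ℤ) → ℝ) :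
    0 < qq β N σ w := div_pos (Real.exp_pos _) (den_pos β N w)

theorem qq_sum (β : ℝ) (N : ℕ) (w : ℕ → (Fin 2 → ℤ) → ℝ) :
    ∑ σ : Fin N → Fin 2 × Bool, qq β N σ w = 1 := by
  unfold qq
  rw [← Finset.sum_div]
  exact div_self (den_pos β N w).ne'

theorem qq_le_one (β : ℝ) (N : ℕ) (σ : Fin N → Fin 2 × Bool) (w : ℕ → (Fin 2 → ℤ) → ℝ) :
    qq β N σ w ≤ 1 := by
  rw [← qq_sum β N w]
  exact Finset.single_le_sum (f := fun σ => qq β N σ w) (fun τ _ => (qq_pos β N τ w).le)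
    (Finset.mem_univ σ)

theorem SS_meas (β : ℝ) (N : ℕ) (σ : Fin N → Fin 2 × Bool) :
    Measurable (fun w : ℕ → (Fin 2 → ℤ) → ℝ => SS N (Vb β w) 0 σ) := by
  unfold SS Vb
  fun_prop

theorem qq_meas (β : ℝ) (N : ℕ) (σ : Fin N → Fin 2 × Bool) : Measurable (qq β N σ) := by
  unfold qq
  exact (Real.measurable_exp.comp (SS_meas β N σ)).div
    (Finset.measurable_sum _ fun τ _ => Real.measurable_exp.comp (SS_meas β N τ))

/-! ### gluing environments -/

/-- slices up to `N` from `w.1`, later slices from `w.2` -/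
def glue {S : Type} (N : ℕ) (w : (ℕ → S) × (ℕ → S)) : ℕ → S :=
  fun n => if n ≤ N then w.1 n else w.2 (n - N)

theorem glue_meas {S : Type} [MeasurableSpace S] (N : ℕ) : Measurable (glue (S := S) N) := by
  refine measurable_pi_lambda _ fun n => ?_
  unfold glue
  by_cases h : n ≤ N
  · simp only [if_pos h]
    exact (measurable_pi_apply n).comp measurable_fst
  · simp only [if_neg h]
    exact (measurable_pi_apply (n - N)).comp measurable_snd

theorem glue_map {S : Type} [MeasurableSpace S] (μ : Measure S) [IsProbabilityMeasure μ] (N : ℕ) :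
    ((Measure.infinitePi (fun _ : ℕ => μ)).prod (Measure.infinitePi (fun _ : ℕ => μ))).map (glue N) =
      Measure.infinitePi (fun _ : ℕ => μ) := by
  refine Measure.eq_infinitePi _ fun s t ht => ?_
  rw [Measure.map_apply (glue_meas N) (MeasurableSet.pi s.countable_toSet fun i _ => ht i)]
  have h1 : glue (S := S) N ⁻¹' ((s : Set ℕ).pi t) =
      (((s.filter (fun n => n ≤ N) : Finset ℕ) : Set ℕ).pi t) ×ˢ
        ((((s.filter (fun n => ¬ n ≤ N)).image (fun n => n - N) : Finset ℕ) : Set ℕ).pi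
          (fun n => t (n + N))) := by
    ext w
    simp only [Set.mem_preimage, Set.mem_pi, Finset.mem_coe, Set.mem_prod, Finset.mem_filter,
      Finset.mem_image, glue]
    constructor
    · intro h
      constructor
      · rintro n ⟨hn, hN⟩
        have := h n hn
        rwa [if_pos hN] at this
      · rintro k ⟨n, ⟨hn, hN⟩, rfl⟩
        have := h n hn
        rw [if_neg hN] at this
        have e : n - N + N = n := by omega
        rwa [e]
    · rintro ⟨h1, h2⟩ n hn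
      by_cases hN : n ≤ N
      · rw [if_pos hN]; exact h1 n ⟨hn, hN⟩
      · rw [if_neg hN]
        have := h2 (n - N) ⟨n, ⟨hn, hN⟩, rfl⟩
        have e : n - N + N = n := by omega
        rwa [e] at this
  rw [h1, Measure.prod_prod, Measure.infinitePi_pi _ (fun i _ => ht i),
    Measure.infinitePi_pi _ (fun i _ => ht (i + N))]
  rw [Finset.prod_image, ← Finset.prod_filter_mul_prod_filter_not s (fun n => n ≤ N)]
  · congr 1
    refine Finset.prod_congr rfl fun n hn => ?_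
    rw [Finset.mem_filter] at hn
    have e : n - N + N = n := by omega
    rw [e]
  · intro a ha b hb hab
    simp only [Finset.coe_filter, Set.mem_setOf_eq] at ha hb hab
    omega

/-- shift in space -/
theorem shift_map (μ : Measure ((Fin 2 → ℤ) → ℝ)) (hμ : Good hc μ) (z : Fin 2 → ℤ) :
    (PP μ).map (fun w n x => w n (x + z)) = PP μ := by
  haveI := hμ.prob
  unfold PP
  have h := Measure.infinitePi_map_pi (μ := fun _ : ℕ => μ) (Y := fun _ => (Fin 2 → ℤ) → ℝ)
    (f := fun _ s x => s (x + z)) (fun _ => by fun_prop)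
  rw [h]
  congr 1
  funext n
  exact hμ.inv z

theorem taskSup : TaskSup := by
  intro _ hInt hc μ hμ β hβ N M
  haveI := hμ.prob
  haveI : IsProbabilityMeasure (PP μ) := by unfold PP; infer_instance
  have hL : ∀ K, Integrable (LW β K) (PP μ) := fun K =>
    ((hInt μ hμ β K).2.2.2).integrable (by norm_num)
  have hmp : MeasurePreserving (glue N) ((PP μ).prod (PP μ)) (PP μ) :=
    ⟨glue_meas N, glue_map μ N⟩
  -- the shifted functions
  have hsm : ∀ z : Fin 2 → ℤ, Measurable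
      (fun (w : ℕ → (Fin 2 → ℤ) → ℝ) (n : ℕ) (x : Fin 2 → ℤ) => w n (x + z)) := by
    intro z; fun_prop
  have hsp : ∀ z : Fin 2 → ℤ, MeasurePreserving
      (fun (w : ℕ → (Fin 2 → ℤ) → ℝ) (n : ℕ) (x : Fin 2 → ℤ) => w n (x + z)) (PP μ) (PP μ) :=
    fun z => ⟨hsm z, shift_map μ hμ z⟩
  have hz : ∀ (z : Fin 2 → ℤ) (w : ℕ → (Fin 2 → ℤ) → ℝ),
      Real.log (W β M z w) = LW β M (fun n x => w n (x + z)) := by
    intro z w
    unfold LW W
    rw [Wr_trans]
    rfl
  have hzi : ∀ z : Fin 2 → ℤ, Integrable (fun w => Real.log (W β M z w)) (PP μ) := by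
    intro z
    have := (hsp z).integrable_comp_of_integrable (hL M)
    refine this.congr (Filter.Eventually.of_forall fun w => ?_)
    exact (hz z w).symm
  have hze : ∀ z : Fin 2 → ℤ, ∫ w, Real.log (W β M z w) ∂(PP μ) = ∫ w, LW β M w ∂(PP μ) := by
    intro z
    have h1 : ∫ w, Real.log (W β M z w) ∂(PP μ) =
        ∫ w, LW β M (fun n x => w n (x + z)) ∂(PP μ) := integral_congr_ae
      (Filter.Eventually.of_forall fun w => hz z w)
    rw [h1]
    have h2 := integral_map (μ := PP μ) (hsm z).aemeasurable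
      (f := LW β M) (by rw [shift_map μ hμ z]; exact (hL M).aestronglyMeasurable)
    rw [shift_map μ hμ z] at h2
    exact h2.symm
  -- pointwise inequality
  have key : ∀ w : (ℕ → (Fin 2 → ℤ) → ℝ) × (ℕ → (Fin 2 → ℤ) → ℝ),
      LW β N w.1 + ∑ σ : Fin N → Fin 2 × Bool, qq β N σ w.1 * Real.log (W β M (pos σ N) w.2) ≤
        LW β (N + M) (glue N w) := by
    rintro ⟨w₁, w₂⟩
    simp only
    set D := ∑ τ : Fin N → Fin 2 × Bool, Real.exp (SS N (Vb β w₁) 0 τ) with hD
    have hDpos : 0 < D := den_pos β N w₁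
    have hSS : ∀ σ : Fin N → Fin 2 × Bool, SS N (Vb β (glue N (w₁, w₂))) 0 σ = SS N (Vb β w₁) 0 σ := by
      intro σ
      unfold SS
      refine Finset.sum_congr rfl fun n hn => ?_
      rw [Finset.mem_Icc] at hn
      unfold Vb glue
      rw [if_pos hn.2]
    have hWM : ∀ z : Fin 2 → ℤ, Wr M (fun n => Vb β (glue N (w₁, w₂)) (n + N)) z = W β M z w₂ := by
      intro z
      unfold W
      apply Wr_congr
      intro n hn _
      funext x
      unfold Vb glue
      rw [if_neg (by omega), Nat.add_sub_cancel]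
    have e1 : W β (N + M) 0 (glue N (w₁, w₂)) = ((4 : ℝ) ^ N)⁻¹ * (D *
        ∑ σ : Fin N → Fin 2 × Bool, qq β N σ w₁ * W β M (pos σ N) w₂) := by
      unfold W
      rw [Wr_add, Finset.mul_sum _ _ D]
      refine congrArg (fun t : ℝ => ((4 : ℝ) ^ N)⁻¹ * t) (Finset.sum_congr rfl fun σ _ => ?_)
      rw [hSS, hWM, zero_add]
      unfold qq W
      rw [← hD, ← mul_assoc, mul_div_cancel₀ _ hDpos.ne']
    have e2 : W β N 0 w₁ = ((4 : ℝ) ^ N)⁻¹ * D := by
      unfold W
      rw [Wr_path]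
    have hWpos : ∀ σ : Fin N → Fin 2 × Bool, 0 < W β M (pos σ N) w₂ := fun σ => Wr_pos _ _ _
    have hsum : 0 < ∑ σ : Fin N → Fin 2 × Bool, qq β N σ w₁ * W β M (pos σ N) w₂ :=
      Finset.sum_pos (fun σ _ => mul_pos (qq_pos β N σ w₁) (hWpos σ)) Finset.univ_nonempty
    have hJ : ∑ σ : Fin N → Fin 2 × Bool, qq β N σ w₁ * Real.log (W β M (pos σ N) w₂) ≤
        Real.log (∑ σ : Fin N → Fin 2 × Bool, qq β N σ w₁ * W β M (pos σ N) w₂) := by
      have := strictConcaveOn_log_Ioi.concaveOn.le_map_sum (t := Finset.univ)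
        (w := fun σ => qq β N σ w₁) (p := fun σ => W β M (pos σ N) w₂)
        (fun σ _ => (qq_pos β N σ w₁).le) (qq_sum β N w₁) (fun σ _ => hWpos σ)
      simpa only [smul_eq_mul] using this
    unfold LW
    rw [e1, e2, ← mul_assoc, Real.log_mul (by positivity) hsum.ne']
    linarith
  -- integration
  have hqi : ∀ σ : Fin N → Fin 2 × Bool, Integrable (qq β N σ) (PP μ) := by
    intro σ
    refine Integrable.mono' (integrable_const (1 : ℝ)) (qq_meas β N σ).aestronglyMeasurable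
      (Filter.Eventually.of_forall fun w => ?_)
    rw [Real.norm_eq_abs, abs_of_pos (qq_pos β N σ w)]
    exact qq_le_one β N σ w
  have hI1 : Integrable (fun w : (ℕ → (Fin 2 → ℤ) → ℝ) × (ℕ → (Fin 2 → ℤ) → ℝ) => LW β N w.1)
      ((PP μ).prod (PP μ)) := (hL N).comp_fst (PP μ)
  have hI2 : ∀ σ : Fin N → Fin 2 × Bool, Integrable
      (fun w : (ℕ → (Fin 2 → ℤ) → ℝ) × (ℕ → (Fin 2 → ℤ) → ℝ) =>
        qq β N σ w.1 * Real.log (W β M (pos σ N) w.2)) ((PP μ).prod (PP μ)) :=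
    fun σ => (hqi σ).mul_prod (hzi (pos σ N))
  have hI3 : Integrable (fun w : (ℕ → (Fin 2 → ℤ) → ℝ) × (ℕ → (Fin 2 → ℤ) → ℝ) =>
      ∑ σ : Fin N → Fin 2 × Bool, qq β N σ w.1 * Real.log (W β M (pos σ N) w.2))
      ((PP μ).prod (PP μ)) := integrable_finset_sum _ fun σ _ => hI2 σ
  have hI4 : Integrable (fun w => LW β (N + M) (glue N w)) ((PP μ).prod (PP μ)) :=
    hmp.integrable_comp_of_integrable (hL (N + M))
  have hmono := integral_mono (hI1.add hI3) hI4 key
  have hR : ∫ w, LW β (N + M) (glue N w) ∂((PP μ).prod (PP μ)) =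
      ∫ w, LW β (N + M) w ∂(PP μ) := by
    have h2 := integral_map (μ := (PP μ).prod (PP μ)) (glue_meas N).aemeasurable
      (f := LW β (N + M)) (by rw [hmp.map_eq]; exact (hL (N + M)).aestronglyMeasurable)
    rw [hmp.map_eq] at h2
    exact h2.symm
  have hLs : ∫ w, (LW β N w.1 + ∑ σ : Fin N → Fin 2 × Bool,
      qq β N σ w.1 * Real.log (W β M (pos σ N) w.2)) ∂((PP μ).prod (PP μ)) =
      ∫ w, LW β N w ∂(PP μ) + ∫ w, LW β M w ∂(PP μ) := by
    rw [integral_add hI1 hI3, integral_finset_sum _ (fun σ _ => hI2 σ)]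
    congr 1
    · have := integral_fun_fst (μ := PP μ) (ν := PP μ) (LW β N)
      simpa using this
    · have h5 : ∀ σ : Fin N → Fin 2 × Bool,
          ∫ w : (ℕ → (Fin 2 → ℤ) → ℝ) × (ℕ → (Fin 2 → ℤ) → ℝ),
            qq β N σ w.1 * Real.log (W β M (pos σ N) w.2) ∂((PP μ).prod (PP μ)) =
          (∫ w, qq β N σ w ∂(PP μ)) * ∫ w, LW β M w ∂(PP μ) := by
        intro σ
        rw [integral_prod_mul (μ := PP μ) (ν := PP μ) (qq β N σ)
          (fun w => Real.log (W β M (pos σ N) w)), hze]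
      rw [Finset.sum_congr rfl (fun σ _ => h5 σ), ← Finset.sum_mul,
        ← integral_finset_sum _ (fun σ _ => hqi σ)]
      simp only [qq_sum]
      simp
  rw [hR] at hmono
  rw [← hLs]
  exact hmono

end Pool.Agent.P8H81.LP.SupAux
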