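import Pool.Agent.P8H81.LP.Defs

/-! Project LP, second part: the lower bound `-p(β) ≥ exp (-(C/β)^(2/(a+1)))` by fractional moments
and a tilt of the environment. Statements of the packages. -/

set_option autoImplicit false

open MeasureTheory ProbabilityTheory Filter Finset

namespace Pool.Agent.P8H81.LP

/-- mean over all paths of length `N` -/
noncomputable def EV (N : ℕ) (F : (Fin N → Fin 2 × Bool) → ℝ) : ℝ :=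
  ((4 : ℝ) ^ N)⁻¹ * ∑ σ : Fin N → Fin 2 × Bool, F σ

open Classical in
/-- mean over the paths of length `N` ending at `x` -/
noncomputable def QQ (N : ℕ) (F : (Fin N → Fin 2 × Bool) → ℝ) (x : Fin 2 → ℤ) : ℝ :=
  ((4 : ℝ) ^ N)⁻¹ * ∑ σ ∈ univ.filter (fun σ : Fin N → Fin 2 × Bool => pos σ N = x), F σ

/-- the weight of a path -/
noncomputable def wt (β : ℝ) (N : ℕ) (w : ℕ → (Fin 2 → ℤ) → ℝ) (σ : Fin N → Fin 2 × Bool) : ℝ :=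
  Real.exp (∑ n ∈ Icc 1 N, (β * w n (pos σ n) - β ^ 2 / 2))

/-- the fractional moment summed over the end points -/
noncomputable def AA (μ : Measure ((Fin 2 → ℤ) → ℝ)) (β θ : ℝ) (N : ℕ) : ℝ :=
  ∑ x ∈ box N, ∫ w, (QQ N (wt β N w) x) ^ θ ∂(PP μ)

/-- the radius of the box at time `n` -/
def rad (B n : ℕ) : ℕ := B * (Nat.sqrt n + 1)

/-- the double sum of the correlation over a box -/
noncomputable def dbl (hc : (Fin 2 → ℤ) → ℝ) (R : ℕ) : ℝ := ∑ y ∈ box R, ∑ y' ∈ box R, hc (y - y')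

/-- `S = ∑_{n ≤ N} (log rad n)^(a+1) / n` -/
noncomputable def SS (a : ℝ) (B N : ℕ) : ℝ :=
  ∑ n ∈ Icc 1 N, (1 / (n : ℝ)) * (Real.log (rad B n)) ^ (a + 1)

/-- SUB: submultiplicativity. Proof by induction on `m`: by the decomposition at time `N` (Sup.lean:
`Wr (N + M) V x = 4^(-N) ∑_σ exp(..) Wr M (shift) (x + pos σ N)`) and `(∑ a_i)^θ ≤ ∑ a_i^θ`,
`W_{(m+1)N}(0)^θ ≤ ∑_{x ∈ box N} QQ(x)^θ * W_{mN}(x, shifted environment)^θ`; the first `N` slices are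
independent of the others (`glue` in Sup.lean), translation invariance `Good.inv`. -/
def S_SUB : Prop := TaskPath → TaskInt → ∀ {hc : (Fin 2 → ℤ) → ℝ} (μ : Measure ((Fin 2 → ℤ) → ℝ)),
  Good hc μ → ∀ β θ : ℝ, 0 < β → 0 < θ → θ < 1 → ∀ N : ℕ, 1 ≤ N → ∀ m : ℕ,
  ∫ w, (W β (m * N) 0 w) ^ θ ∂(PP μ) ≤ (AA μ β θ N) ^ m

/-- JEN: by Jensen `θ E log W ≤ log E W^θ` (use `log y ≤ y / c - 1 + log c`); along `n = m N`. -/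
def S_JEN : Prop := S_SUB → TaskPath → TaskInt → ∀ {hc : (Fin 2 → ℤ) → ℝ}
  (μ : Measure ((Fin 2 → ℤ) → ℝ)), Good hc μ → ∀ β θ : ℝ, 0 < β → 0 < θ → θ < 1 → ∀ N : ℕ, 1 ≤ N →
  ∀ p A : ℝ, 0 < A → AA μ β θ N ≤ A →
  Tendsto (fun N : ℕ => (∫ w, LW β N w ∂(PP μ)) / (N : ℝ)) atTop (nhds p) →
  p ≤ Real.log A / (θ * N)

/-- MGF: exponential moments of linear forms on the environment (from GEAux.taskGE in GE.lean). -/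
def S_MGF : Prop := ∀ (hc : (Fin 2 → ℤ) → ℝ),
  (∀ (s : Finset (Fin 2 → ℤ)) (b : (Fin 2 → ℤ) → ℝ), 0 ≤ ∑ x ∈ s, ∑ y ∈ s, b x * b y * hc (x - y)) →
  ∀ μ : Measure ((Fin 2 → ℤ) → ℝ), IsProbabilityMeasure μ → GLin μ (fun x y => hc (x - y)) →
  ∀ (s : Finset (ℕ × (Fin 2 → ℤ))) (a : ℕ × (Fin 2 → ℤ) → ℝ),
  Integrable (fun w => Real.exp (∑ i ∈ s, a i * w i.1 i.2)) (PP μ) ∧
  ∫ w, Real.exp (∑ i ∈ s, a i * w i.1 i.2) ∂(PP μ) =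
    Real.exp ((∑ i ∈ s, ∑ j ∈ s, a i * a j * (if i.1 = j.1 then hc (i.2 - j.2) else 0)) / 2)

/-- PTH: the first moment of one path against the tilt (from MGF): with
`T w = ∑_{n=1}^N q n ∑_{y ∈ box (R n)} w n y` and `G = ∑ (q n)^2 dbl hc (R n)`. -/
def S_PTH : Prop := S_MGF → ∀ (hc : (Fin 2 → ℤ) → ℝ), hc 0 = 1 → (∀ x, hc (-x) = hc x) →
  (∀ (s : Finset (Fin 2 → ℤ)) (b : (Fin 2 → ℤ) → ℝ), 0 ≤ ∑ x ∈ s, ∑ y ∈ s, b x * b y * hc (x - y)) →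
  ∀ μ : Measure ((Fin 2 → ℤ) → ℝ), IsProbabilityMeasure μ → GLin μ (fun x y => hc (x - y)) →
  ∀ (β : ℝ) (N : ℕ) (q : ℕ → ℝ) (R : ℕ → ℕ),
  (∀ (σ : Fin N → Fin 2 × Bool),
    Integrable (fun w => wt β N w σ * Real.exp (-(∑ n ∈ Icc 1 N, q n * ∑ y ∈ box (R n), w n y) -
      (∑ n ∈ Icc 1 N, (q n) ^ 2 * dbl hc (R n)) / 2)) (PP μ) ∧
    ∫ w, wt β N w σ * Real.exp (-(∑ n ∈ Icc 1 N, q n * ∑ y ∈ box (R n), w n y) -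
      (∑ n ∈ Icc 1 N, (q n) ^ 2 * dbl hc (R n)) / 2) ∂(PP μ) =
    Real.exp (-β * ∑ n ∈ Icc 1 N, q n * ∑ y ∈ box (R n), hc (pos σ n - y))) ∧
  ∀ r : ℝ, Integrable (fun w => Real.exp (r * ∑ n ∈ Icc 1 N, q n * ∑ y ∈ box (R n), w n y)) (PP μ) ∧
    ∫ w, Real.exp (r * ∑ n ∈ Icc 1 N, q n * ∑ y ∈ box (R n), w n y) ∂(PP μ) =
      Real.exp (r ^ 2 * (∑ n ∈ Icc 1 N, (q n) ^ 2 * dbl hc (R n)) / 2)

/-- TLT: the change of measure. Proof: `Z = exp (-T - G/2)`, Hölder with exponents `1/θ`, `1/(1-θ)`: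
`E X^θ = E (X Z)^θ Z^(-θ) ≤ (E X Z)^θ (E Z^(-θ/(1-θ)))^(1-θ)`, and
`E Z^(-r) = exp (r^2 G/2 + r G/2)` with `r = θ/(1-θ)`, `(r^2 + r)(1-θ) = θ/(1-θ)`. -/
def S_TLT : Prop := S_PTH → S_MGF → ∀ (hc : (Fin 2 → ℤ) → ℝ), hc 0 = 1 → (∀ x, hc (-x) = hc x) →
  (∀ (s : Finset (Fin 2 → ℤ)) (b : (Fin 2 → ℤ) → ℝ), 0 ≤ ∑ x ∈ s, ∑ y ∈ s, b x * b y * hc (x - y)) →
  ∀ μ : Measure ((Fin 2 → ℤ) → ℝ), IsProbabilityMeasure μ → GLin μ (fun x y => hc (x - y)) →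
  ∀ (β θ : ℝ) (N : ℕ) (q : ℕ → ℝ) (R : ℕ → ℕ), 0 < θ → θ < 1 → ∀ x : Fin 2 → ℤ,
  ∫ w, (QQ N (wt β N w) x) ^ θ ∂(PP μ) ≤
    Real.exp (θ / (1 - θ) * (∑ n ∈ Icc 1 N, (q n) ^ 2 * dbl hc (R n)) / 2) *
    (QQ N (fun σ => Real.exp (-β * ∑ n ∈ Icc 1 N, q n * ∑ y ∈ box (R n), hc (pos σ n - y))) x) ^ θ

/-- EXM: exponential moments of the walk: `|x 0| + |x 1|` at scale `√N`. Proof: coordinates,
`(1/2 + cosh t / 2)^N ≤ exp (t^2 N / 2)` with `t = 4/√N`. -/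
def S_EXM : Prop := ∃ C : ℝ, 0 < C ∧ ∀ N : ℕ, 1 ≤ N →
  EV N (fun σ => Real.exp (2 * ((|(pos σ N 0 : ℝ)| + |(pos σ N 1 : ℝ)|) / √N))) ≤ C

/-- SPR: with `θ = 1 - 1/log N`. Proof: Hölder:
`∑ Q^θ ≤ (∑ Q(x) e^(|x|/√N))^θ (∑ e^(-(θ/(1-θ))|x|/√N))^(1-θ)`, Cauchy-Schwarz and EXM for the first
factor, the second is at most `(C N)^(1/log N) ≤ C'`. -/
def S_SPR : Prop := S_EXM → ∃ C : ℝ, 0 < C ∧ ∀ N : ℕ, 8 ≤ N →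
  ∀ F : (Fin N → Fin 2 × Bool) → ℝ, (∀ σ, 0 ≤ F σ) →
  ∑ x ∈ box N, (QQ N F x) ^ (1 - 1 / Real.log N) ≤
    C * (EV N (fun σ => (F σ) ^ 2)) ^ ((1 - 1 / Real.log N) / 2)

/-- LOW: lower bound of the sums of the correlation over boxes (a quadrant of the box seen from `x`
stays in the box). -/
def S_LOW : Prop := ∀ (a : ℝ), -1 < a → ∀ hc : (Fin 2 → ℤ) → ℝ, (∀ x, 0 ≤ hc x) →
  Tendsto (fun x : Fin 2 → ℤ => hc x * ((x 0 : ℝ) ^ 2 + (x 1 : ℝ) ^ 2) /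
    (Real.log (√((x 0 : ℝ) ^ 2 + (x 1 : ℝ) ^ 2))) ^ a) cofinite (nhds 1) →
  ∃ (κ : ℝ) (R₀ : ℕ), 0 < κ ∧ ∀ R : ℕ, R₀ ≤ R → ∀ x ∈ box R,
    κ * (Real.log R) ^ (a + 1) ≤ ∑ y ∈ box R, hc (x - y)

/-- DBL: upper bound of the double sums (from TaskSum with the box of radius `2R`). -/
def S_DBL : Prop := TaskSum → ∀ (a : ℝ), -1 < a → ∀ hc : (Fin 2 → ℤ) → ℝ, (∀ x, 0 ≤ hc x) →
  Tendsto (fun x : Fin 2 → ℤ => hc x * ((x 0 : ℝ) ^ 2 + (x 1 : ℝ) ^ 2) /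
    (Real.log (√((x 0 : ℝ) ^ 2 + (x 1 : ℝ) ^ 2))) ^ a) cofinite (nhds 1) →
  ∃ C : ℝ, 0 < C ∧ ∀ R : ℕ, 1 ≤ R → dbl hc R ≤ C * (R : ℝ) ^ 2 * (Real.log (2 + R)) ^ (a + 1)

/-- CHB: Chebyshev for the walk: `P(pos σ n ∉ box (rad B n)) ≤ 1/B^2` (each coordinate has second
moment `n/2`). -/
def S_CHB : Prop := ∀ (N B n : ℕ), 1 ≤ B → 1 ≤ n → n ≤ N →
  EV N (fun σ => if pos σ n ∈ box (rad B n) then 0 else 1) ≤ 1 / (B : ℝ) ^ 2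

/-- MRK: Markov: the weighted time outside the boxes is at least `S/2` with probability at most
`2/B^2`. -/
def S_MRK : Prop := S_CHB → ∀ (N B : ℕ), 1 ≤ B → ∀ (g : ℕ → ℝ), (∀ n, 0 ≤ g n) → ∀ t : ℝ, 0 ≤ t →
  EV N (fun σ => Real.exp (-t * ∑ n ∈ Icc 1 N, g n * (if pos σ n ∈ box (rad B n) then 1 else 0))) ≤
    Real.exp (-t * (∑ n ∈ Icc 1 N, g n) / 2) + 2 / (B : ℝ) ^ 2

/-- SLO: lower bound of `SS` (use `rad B n ≥ √n` and the `n` between `√N` and `N`). -/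
def S_SLO : Prop := ∀ a : ℝ, -1 < a → ∃ c : ℝ, 0 < c ∧ ∀ B : ℕ, 1 ≤ B → ∃ N₀ : ℕ, ∀ N : ℕ, N₀ ≤ N →
  c * (Real.log N) ^ (a + 2) ≤ SS a B N

/-- SUP: upper bound of the energy (`rad B n ≤ 2 B √n`). -/
def S_SUPP : Prop := ∀ a : ℝ, -1 < a → ∀ B : ℕ, 1 ≤ B → ∃ (C : ℝ) (N₀ : ℕ), 0 < C ∧ ∀ N : ℕ, N₀ ≤ N →
  ∑ n ∈ Icc 1 N, (1 / (n : ℝ)) ^ 2 * ((rad B n : ℝ) ^ 2 * (Real.log (2 + rad B n)) ^ (a + 1)) ≤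
    C * (Real.log N) ^ (a + 2)

/-- NUM: the choice of the parameters. `B` with `C₀ e^(1/2) (4/B^2)^(θ/2) ≤ e^(-1)` for all `θ ≥ 1/2`;
`δ = (C_1 L^(a+3))^(-1/2)`; `L = log N` of order `(C/β)^(2/(a+1))`. -/
def S_NUM : Prop := ∀ (a κ C₀ CE c : ℝ) (R₀ : ℕ), -1 < a → 0 < κ → 0 < C₀ → 0 < CE → 0 < c →
  ∃ B : ℕ, 1 ≤ B ∧ R₀ ≤ B ∧ ∀ (C₁ : ℝ) (N₀ : ℕ), 0 < C₁ →
  ∃ C b₀ : ℝ, 0 < C ∧ 0 < b₀ ∧ ∀ β : ℝ, 0 < β → β < b₀ → ∃ (N : ℕ) (δ : ℝ), 8 ≤ N ∧ N₀ ≤ N ∧ 0 < δ ∧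
    Real.exp (-(C / β) ^ (2 / (a + 1))) ≤ 1 / (N : ℝ) ∧
    ∀ θ : ℝ, θ = 1 - 1 / Real.log N → ∀ G S : ℝ, G ≤ δ ^ 2 * (CE * (C₁ * (Real.log N) ^ (a + 2))) →
      c * (Real.log N) ^ (a + 2) ≤ S →
      Real.exp (θ / (1 - θ) * G / 2) *
        (C₀ * (Real.exp (-(2 * β * δ * κ) * S / 2) + 2 / (B : ℝ) ^ 2) ^ (θ / 2)) ≤ Real.exp (-1)

end Pool.Agent.P8H81.LP
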