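import Mathlib

/-! Project LP: a planar directed polymer in a Gaussian environment with log-critical spatial
correlation `h(x) ~ (log |x|)^a / |x|^2`. Definitions and the statements of the tasks
(dimension two, general correlation), after the three-dimensional files `H111R5/CP`. -/

set_option autoImplicit false

open MeasureTheory ProbabilityTheory Filter Finset

namespace Pool.Agent.P8H81.LP

/-- the steps of the walk -/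
def stp (e : Fin 2 × Bool) : Fin 2 → ℤ := Pi.single e.1 (if e.2 then (1 : ℤ) else -1)

/-- position after `n` steps -/
def pos {N : ℕ} (σ : Fin N → Fin 2 × Bool) (n : ℕ) : Fin 2 → ℤ :=
  ∑ k ∈ univ.filter (fun k : Fin N => k.val < n), stp (σ k)

/-- partition function (sum over paths) for a potential `V` -/
noncomputable def Wp (N : ℕ) (V : ℕ → (Fin 2 → ℤ) → ℝ) (x : Fin 2 → ℤ) : ℝ :=
  ((4 : ℝ) ^ N)⁻¹ * ∑ σ : Fin N → Fin 2 × Bool, Real.exp (∑ n ∈ Icc 1 N, V n (x + pos σ n))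

/-- the same by recursion on the first step -/
noncomputable def Wr : ℕ → (ℕ → (Fin 2 → ℤ) → ℝ) → (Fin 2 → ℤ) → ℝ
  | 0, _, _ => 1
  | N + 1, V, x => (1 / 4) * ∑ e : Fin 2 × Bool,
      Real.exp (V 1 (x + stp e)) * Wr N (fun n => V (n + 1)) (x + stp e)

/-- the potential at inverse temperature `β` in the environment `w` -/
noncomputable def Vb (β : ℝ) (w : ℕ → (Fin 2 → ℤ) → ℝ) (n : ℕ) (x : Fin 2 → ℤ) : ℝ :=
  β * w n x - β ^ 2 / 2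

/-- normalised partition function started from `x` -/
noncomputable def W (β : ℝ) (N : ℕ) (x : Fin 2 → ℤ) (w : ℕ → (Fin 2 → ℤ) → ℝ) : ℝ := Wr N (Vb β w) x

/-- its logarithm, started from the origin -/
noncomputable def LW (β : ℝ) (N : ℕ) (w : ℕ → (Fin 2 → ℤ) → ℝ) : ℝ := Real.log (W β N 0 w)

/-- law of the environment: independent slices with law `μ` -/
noncomputable def PP (μ : Measure ((Fin 2 → ℤ) → ℝ)) : Measure (ℕ → (Fin 2 → ℤ) → ℝ) :=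
  Measure.infinitePi (fun _ : ℕ => μ)

/-- all finite linear combinations of the field are centred Gaussian with covariance `c` -/
def GLin (μ : Measure ((Fin 2 → ℤ) → ℝ)) (c : (Fin 2 → ℤ) → (Fin 2 → ℤ) → ℝ) : Prop :=
  ∀ (s : Finset (Fin 2 → ℤ)) (a : (Fin 2 → ℤ) → ℝ),
    μ.map (fun ω => ∑ x ∈ s, a x * ω x) =
      gaussianReal 0 (Real.toNNReal (∑ x ∈ s, ∑ y ∈ s, a x * a y * c x y))

/-- what is used of the law of a slice -/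
structure Good (hc : (Fin 2 → ℤ) → ℝ) (μ : Measure ((Fin 2 → ℤ) → ℝ)) : Prop where
  prob : IsProbabilityMeasure μ
  inv : ∀ z : Fin 2 → ℤ, μ.map (fun s x => s (x + z)) = μ
  int : ∀ (t : ℝ) (x : Fin 2 → ℤ), Integrable (fun s => Real.exp (t * s x)) μ
  mgf : ∀ (t : ℝ) (x : Fin 2 → ℤ), ∫ s, Real.exp (t * s x) ∂μ = Real.exp (t ^ 2 / 2)
  mgf2 : ∀ (t : ℝ) (x y : Fin 2 → ℤ),
    ∫ s, Real.exp (t * (s x + s y)) ∂μ = Real.exp (t ^ 2 * (1 + hc (x - y)))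

/-- the averaging operator of the difference of two independent walks -/
noncomputable def TT (f : (Fin 2 → ℤ) → ℝ) (z : Fin 2 → ℤ) : ℝ :=
  (1 / 16) * ∑ e : Fin 2 × Bool, ∑ e' : Fin 2 × Bool, f (z + stp e - stp e')

/-- the box of radius `R` -/
noncomputable def box (R : ℕ) : Finset (Fin 2 → ℤ) := Fintype.piFinset (fun _ => Finset.Icc (-(R : ℤ)) (R : ℤ))

/-! ### tasks -/

/-- TASK PATH: the two forms of the partition function agree -/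
def TaskPath : Prop := ∀ (N : ℕ) (V : ℕ → (Fin 2 → ℤ) → ℝ) (x : Fin 2 → ℤ), Wp N V x = Wr N V x

/-- TASK GOOD: translation invariance and exponential moments -/
def TaskGood : Prop := ∀ hc : (Fin 2 → ℤ) → ℝ, hc 0 = 1 → (∀ x, hc (-x) = hc x) → (∀ x, 0 ≤ hc x) →
  ∀ μ : Measure ((Fin 2 → ℤ) → ℝ), IsProbabilityMeasure μ →
  GLin μ (fun x y => hc (x - y)) → Good hc μ

/-- TASK INT: measurability and integrability; `W` has mean one -/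
def TaskInt : Prop := ∀ {hc : (Fin 2 → ℤ) → ℝ} (μ : Measure ((Fin 2 → ℤ) → ℝ)), Good hc μ →
  ∀ (β : ℝ) (N : ℕ),
  (∀ x, Measurable (W β N x)) ∧ (∀ x, MemLp (W β N x) 2 (PP μ)) ∧ (∀ x, ∫ w, W β N x w ∂(PP μ) = 1) ∧
  MemLp (LW β N) 2 (PP μ)

/-- TASK VAR: linear variance, uniformly in the temperature -/
def TaskVar : Prop := TaskPath → TaskInt → ∀ {hc : (Fin 2 → ℤ) → ℝ}
  (μ : Measure ((Fin 2 → ℤ) → ℝ)), Good hc μ →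
  ∀ β : ℝ, 0 < β → ∀ N : ℕ, variance (LW β N) (PP μ) ≤ (3 + 3 * Real.exp (β ^ 2)) * N

/-- TASK SUP: superadditivity of the mean -/
def TaskSup : Prop := TaskPath → TaskInt → ∀ {hc : (Fin 2 → ℤ) → ℝ}
  (μ : Measure ((Fin 2 → ℤ) → ℝ)), Good hc μ → ∀ β : ℝ, 0 < β →
  ∀ N M : ℕ, ∫ w, LW β N w ∂(PP μ) + ∫ w, LW β M w ∂(PP μ) ≤ ∫ w, LW β (N + M) w ∂(PP μ)

/-- TASK AS: almost sure convergence -/
def TaskAS : Prop := TaskPath → TaskInt → ∀ {hc : (Fin 2 → ℤ) → ℝ}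
  (μ : Measure ((Fin 2 → ℤ) → ℝ)), Good hc μ → ∀ β : ℝ, 0 < β →
  (∃ C : ℝ, 0 ≤ C ∧ ∀ N : ℕ, variance (LW β N) (PP μ) ≤ C * N) → ∀ p : ℝ,
  Tendsto (fun N : ℕ => (∫ w, LW β N w ∂(PP μ)) / (N : ℝ)) atTop (nhds p) →
  ∀ᵐ w ∂(PP μ), Tendsto (fun N : ℕ => LW β N w / (N : ℝ)) atTop (nhds p)

/-- TASK LIM: the limit of the means exists, is nonpositive, and is the supremum -/
def TaskLim : Prop := TaskSup → TaskPath → TaskInt → ∀ {hc : (Fin 2 → ℤ) → ℝ}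
  (μ : Measure ((Fin 2 → ℤ) → ℝ)), Good hc μ →
  ∀ β : ℝ, 0 < β → ∃ p : ℝ, p ≤ 0 ∧
    (∀ N : ℕ, 1 ≤ N → (∫ w, LW β N w ∂(PP μ)) / (N : ℝ) ≤ p) ∧
    Tendsto (fun N : ℕ => (∫ w, LW β N w ∂(PP μ)) / (N : ℝ)) atTop (nhds p)

/-- TASK KER: the heat kernel of the difference walk is at most `1/n`. Proof: for products
`f z = φ (z 0 + z 1) * ψ (z 0 - z 1)` one has `TT f z = (B (B φ)) (z 0 + z 1) * (B (B ψ)) (z 0 - z 1)`
with `B φ m = (φ (m+1) + φ (m-1)) / 2`; `B^[N] φ m = 2^(-N) ∑_{i ≤ N} choose N i * φ (m + N - 2 i)`,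
so for `φ` the indicator of a point `B^[2n] φ m ≤ centralBinom n / 4^n`, and
`centralBinom n ^ 2 * (2 n + 1) ≤ 16 ^ n`. Then `f ≤ ∑_{y ∈ S} f y * 1_y + M`. -/
def TaskKer : Prop := ∀ (n : ℕ), 1 ≤ n → ∀ (f : (Fin 2 → ℤ) → ℝ) (S : Finset (Fin 2 → ℤ)) (M : ℝ),
  (∀ y, 0 ≤ f y) → 0 ≤ M → (∀ y, y ∉ S → f y ≤ M) → ∀ z : Fin 2 → ℤ,
  TT^[n] f z ≤ (1 / (n : ℝ)) * ∑ y ∈ S, f y + M

/-- TASK SUM: sums of the correlation over boxes -/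
def TaskSum : Prop := ∀ (a : ℝ), -1 < a → ∀ hc : (Fin 2 → ℤ) → ℝ, (∀ x, 0 ≤ hc x) →
  Tendsto (fun x : Fin 2 → ℤ => hc x * ((x 0 : ℝ) ^ 2 + (x 1 : ℝ) ^ 2) /
    (Real.log (√((x 0 : ℝ) ^ 2 + (x 1 : ℝ) ^ 2))) ^ a) cofinite (nhds 1) →
  ∃ C : ℝ, 0 < C ∧ (∀ x, hc x ≤ C) ∧ ∀ R : ℕ, 1 ≤ R →
    (∑ y ∈ box R, hc y ≤ C * (Real.log (2 + R)) ^ (a + 1)) ∧
    (∀ y : Fin 2 → ℤ, y ∉ box R → hc y ≤ C / R)

/-- TASK KHAS: Khas'minskii's lemma for the recursion of the second moment. Proof: with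
`g = exp (b * hc) - 1` one has `u (N+1) = TT (exp (b hc) * u N)`, by induction
`u N = 1 + ∑_{n=1}^{N} TT^[n] (g * u (N-n))`, so `u ≤ 2` by strong induction. -/
def TaskKhas : Prop := ∀ (g : (Fin 2 → ℤ) → ℝ) (u : ℕ → (Fin 2 → ℤ) → ℝ) (N : ℕ),
  (∀ y, 0 ≤ g y) → (∀ z, u 0 z = 1) →
  (∀ n z, u (n + 1) z = TT (fun y => (1 + g y) * u n y) z) →
  (∀ z, ∑ n ∈ Icc 1 N, TT^[n] g z ≤ 1 / 2) → ∀ n ≤ N, ∀ z, u n z ≤ 2

/-- TASK MOM: the second moment stays below `2` up to `log N ~ β^(-2/(a+2))` -/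
def TaskMom : Prop := TaskKer → TaskSum → TaskKhas → TaskInt →
  ∀ (a : ℝ), -1 < a → ∀ hc : (Fin 2 → ℤ) → ℝ, (∀ x, 0 ≤ hc x) →
  Tendsto (fun x : Fin 2 → ℤ => hc x * ((x 0 : ℝ) ^ 2 + (x 1 : ℝ) ^ 2) /
    (Real.log (√((x 0 : ℝ) ^ 2 + (x 1 : ℝ) ^ 2))) ^ a) cofinite (nhds 1) →
  ∃ K : ℝ, 0 < K ∧ ∀ μ : Measure ((Fin 2 → ℤ) → ℝ), Good hc μ → ∀ β : ℝ, 0 < β →
  ∀ N : ℕ, 1 ≤ N → K * β ^ 2 * (Real.log (2 + N)) ^ (a + 2) ≤ 1 →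
    ∫ w, (W β N 0 w) ^ 2 ∂(PP μ) ≤ 2

/-- TASK ZERO: Paley-Zygmund against Chebyshev, in finite volume -/
def TaskZero : Prop := TaskInt → ∀ {hc : (Fin 2 → ℤ) → ℝ} (μ : Measure ((Fin 2 → ℤ) → ℝ)), Good hc μ →
  ∀ β C : ℝ, 0 < β → 0 < C → ∀ N : ℕ, 1 ≤ N → ∫ w, (W β N 0 w) ^ 2 ∂(PP μ) ≤ 2 →
  variance (LW β N) (PP μ) ≤ C * N →
  -(Real.log 2 + √(8 * C * N)) ≤ ∫ w, LW β N w ∂(PP μ)

/-- TASK FIN: the choice of `N` -/
def TaskFin : Prop := ∀ (a K C : ℝ), -1 < a → 0 < K → 0 < C →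
  ∃ c b₀ : ℝ, 0 < c ∧ 0 < b₀ ∧ b₀ ≤ 1 ∧ ∀ β : ℝ, 0 < β → β < b₀ → ∃ N : ℕ, 1 ≤ N ∧
    K * β ^ 2 * (Real.log (2 + N)) ^ (a + 2) ≤ 1 ∧
    (Real.log 2 + √(8 * C * N)) / (N : ℝ) ≤ Real.exp (-(c / β) ^ (2 / (a + 2)))

end Pool.Agent.P8H81.LP
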