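import Pool.Agent.P8H81.LP.Defs

/-! Task GOOD of project H111-CP. -/

set_option autoImplicit false

open MeasureTheory ProbabilityTheory Filter Finset

namespace Pool.Agent.P8H81.LP.GoodAux

variable {hc : (Fin 2 → ℤ) → ℝ}

open Pool.Agent.P8H81.LP

theorem measurable_lin (s : Finset (Fin 2 → ℤ)) (a : (Fin 2 → ℤ) → ℝ) :
    Measurable (fun ω : (Fin 2 → ℤ) → ℝ => ∑ x ∈ s, a x * ω x) :=
  Finset.measurable_fun_sum _ fun x _ => measurable_const.mul (measurable_pi_apply x)

theorem taskGood : TaskGood := by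
  classical
  intro hc h0 hsym hb μ hμ hG
  have hmg : ∀ (s : Finset (Fin 2 → ℤ)) (a : (Fin 2 → ℤ) → ℝ) (t : ℝ),
      Integrable (fun ω : (Fin 2 → ℤ) → ℝ => Real.exp (t * ∑ x ∈ s, a x * ω x)) μ ∧
      ∫ ω : (Fin 2 → ℤ) → ℝ, Real.exp (t * ∑ x ∈ s, a x * ω x) ∂μ =
        Real.exp ((Real.toNNReal (∑ x ∈ s, ∑ y ∈ s, a x * a y * hc (x - y)) : ℝ) * t ^ 2 / 2) := by
    intro s a t
    have h1 := hG s a
    constructor
    · have h2 : Integrable (fun r : ℝ => Real.exp (t * r))
          (μ.map (fun ω : (Fin 2 → ℤ) → ℝ => ∑ x ∈ s, a x * ω x)) := by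
        rw [h1]
        exact integrable_exp_mul_gaussianReal t
      exact h2.comp_measurable (measurable_lin s a)
    · have h2 := mgf_gaussianReal h1 t
      rw [zero_mul, zero_add] at h2
      exact h2
  refine ⟨hμ, ?_, ?_, ?_, ?_⟩
  · intro z
    have h1 := (map_eq_iff_forall_finset_map_restrict_eq (T := Fin 2 → ℤ)
      (P := μ) (X := fun (t : Fin 2 → ℤ) (ω : (Fin 2 → ℤ) → ℝ) => ω (t + z))
      (Y := fun (t : Fin 2 → ℤ) (ω : (Fin 2 → ℤ) → ℝ) => ω t)
      (measurable_pi_lambda _ fun t => measurable_pi_apply (t + z)).aemeasurable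
      (measurable_pi_lambda _ fun t => measurable_pi_apply t).aemeasurable).2 ?_
    · have h2 : μ.map (fun ω : (Fin 2 → ℤ) → ℝ => fun x => ω x) = μ := Measure.map_id
      exact h1.trans h2
    · intro I
      have hmX : Measurable (fun ω : (Fin 2 → ℤ) → ℝ =>
          I.restrict (fun t : Fin 2 → ℤ => ω (t + z))) :=
        measurable_pi_lambda _ fun t => measurable_pi_apply (t.1 + z)
      have hmY : Measurable (fun ω : (Fin 2 → ℤ) → ℝ =>
          I.restrict (fun t : Fin 2 → ℤ => ω t)) :=
        measurable_pi_lambda _ fun t => measurable_pi_apply t.1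
      haveI : IsFiniteMeasure (μ.map (fun ω : (Fin 2 → ℤ) → ℝ =>
          I.restrict (fun t : Fin 2 → ℤ => ω (t + z)))) :=
        Measure.isFiniteMeasure_map μ _
      haveI : IsFiniteMeasure (μ.map (fun ω : (Fin 2 → ℤ) → ℝ =>
          I.restrict (fun t : Fin 2 → ℤ => ω t))) :=
        Measure.isFiniteMeasure_map μ _
      refine Measure.ext_of_charFunDual ?_
      ext L
      rw [charFunDual_eq_charFun_map_one, charFunDual_eq_charFun_map_one]
      congr 1
      have hLm : Measurable (fun v : I → ℝ => L v) := L.continuous.measurable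
      rw [Measure.map_map hLm hmX, Measure.map_map hLm hmY]
      set a : (Fin 2 → ℤ) → ℝ := fun x =>
        if h : x ∈ I then L (fun j => if (⟨x, h⟩ : I) = j then 1 else 0) else 0 with ha
      have hL : ∀ v : (Fin 2 → ℤ) → ℝ, L (I.restrict v) = ∑ x ∈ I, a x * v x := by
        intro v
        have h3 := LinearMap.pi_apply_eq_sum_univ (L : (I → ℝ) →ₗ[ℝ] ℝ) (I.restrict v)
        have h4 : (L : (I → ℝ) →ₗ[ℝ] ℝ) (I.restrict v) = L (I.restrict v) := rfl
        rw [← h4, h3, ← Finset.sum_coe_sort I (fun x => a x * v x)]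
        refine Finset.sum_congr rfl fun i _ => ?_
        have h5 : a i.1 = L (fun j => if i = j then 1 else 0) := by
          simp only [ha]
          rw [dif_pos i.2]
        rw [h5, smul_eq_mul, mul_comm]
        rfl
      have hX : ((fun v : I → ℝ => L v) ∘ fun ω : (Fin 2 → ℤ) → ℝ =>
          I.restrict (fun t : Fin 2 → ℤ => ω (t + z))) =
          fun ω => ∑ y ∈ I.map (addRightEmbedding z), a (y - z) * ω y := by
        funext ω
        rw [Finset.sum_map]
        simp only [Function.comp, addRightEmbedding_apply, add_sub_cancel_right]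
        exact hL (fun t => ω (t + z))
      have hY : ((fun v : I → ℝ => L v) ∘ fun ω : (Fin 2 → ℤ) → ℝ =>
          I.restrict (fun t : Fin 2 → ℤ => ω t)) =
          fun ω => ∑ y ∈ I, a y * ω y := by
        funext ω
        exact hL (fun t => ω t)
      rw [hX, hY, hG, hG]
      congr 2
      simp only [Finset.sum_map, addRightEmbedding_apply, add_sub_cancel_right,
        add_sub_add_right_eq_sub]
  · intro t x
    have h1 := (hmg {x} (fun _ => 1) t).1
    simpa using h1
  · intro t x
    have h1 := (hmg {x} (fun _ => 1) t).2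
    simp only [Finset.sum_singleton, one_mul, sub_self, h0, Real.toNNReal_one, NNReal.coe_one] at h1
    exact h1
  · intro t x y
    set a : (Fin 2 → ℤ) → ℝ := fun z => (if z = x then 1 else 0) + (if z = y then 1 else 0) with ha
    have hs : ∀ f : (Fin 2 → ℤ) → ℝ, ∑ z ∈ ({x, y} : Finset (Fin 2 → ℤ)), a z * f z = f x + f y := by
      intro f
      simp only [ha, add_mul, ite_mul, one_mul, zero_mul, Finset.sum_add_distrib]
      rw [Finset.sum_ite_eq', Finset.sum_ite_eq', if_pos (by simp), if_pos (by simp)]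
    have h1 := (hmg {x, y} a t).2
    have h2 : ∑ u ∈ ({x, y} : Finset (Fin 2 → ℤ)), ∑ v ∈ ({x, y} : Finset (Fin 2 → ℤ)),
        a u * a v * hc (u - v) = 2 * (1 + hc (x - y)) := by
      have h3 : ∀ u, ∑ v ∈ ({x, y} : Finset (Fin 2 → ℤ)), a u * a v * hc (u - v) =
          a u * (hc (u - x) + hc (u - y)) := by
        intro u
        rw [← hs (fun v => hc (u - v)), Finset.mul_sum]
        exact Finset.sum_congr rfl fun v _ => by ring
      rw [Finset.sum_congr rfl fun u _ => h3 u, hs (fun u => hc (u - x) + hc (u - y)), sub_self,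
        sub_self, h0]
      have h4 : hc (y - x) = hc (x - y) := by rw [← hsym (x - y), neg_sub]
      rw [h4]
      ring
    rw [h2, Real.coe_toNNReal _ (by have := hb (x - y); linarith)] at h1
    simp only [hs] at h1
    rw [h1]
    congr 1
    ring

end Pool.Agent.P8H81.LP.GoodAux
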