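import Pool.Agent.P8H81.LP.Defs

/-! Project H111-CP, task INT (helper41): measurability, square integrability and mean of the
partition function of the directed polymer, square integrability of its logarithm. -/

set_option autoImplicit false

open MeasureTheory ProbabilityTheory Filter Finset

namespace Pool.Agent.P8H81.LP.IntAux

variable {hc : (Fin 2 → ℤ) → ℝ}

open Pool.Agent.P8H81.LP

variable {μ : Measure ((Fin 2 → ℤ) → ℝ)}

lemma prob_PP (h : Good hc μ) : IsProbabilityMeasure (PP μ) := by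
  haveI := h.prob
  unfold PP
  infer_instance

/-- exponential of a linear function of one coordinate is square integrable -/
lemma memLp_exp (h : Good hc μ) (c d : ℝ) (n : ℕ) (y : Fin 2 → ℤ) :
    MemLp (fun w : ℕ → (Fin 2 → ℤ) → ℝ => Real.exp (c * w n y + d)) 2 (PP μ) := by
  haveI := h.prob
  have hm : Measurable (fun w : ℕ → (Fin 2 → ℤ) → ℝ => Real.exp (c * w n y + d)) := by
    have : Measurable (fun w : ℕ → (Fin 2 → ℤ) → ℝ => w n y) :=
      (measurable_pi_apply y).comp (measurable_pi_apply n)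
    fun_prop
  rw [memLp_two_iff_integrable_sq hm.aestronglyMeasurable]
  have h1 : Integrable (fun s : (Fin 2 → ℤ) → ℝ => Real.exp (2 * c * s y) * Real.exp (2 * d)) μ :=
    (h.int (2 * c) y).mul_const _
  have h2 := (measurePreserving_eval_infinitePi (fun _ : ℕ => μ) n).integrable_comp_of_integrable h1
  refine h2.congr (ae_of_all _ fun w => ?_)
  simp only [Function.comp, Function.eval]
  rw [← Real.exp_add, ← Real.exp_nat_mul]
  congr 1
  push_cast
  ring

lemma exp_sum_le (s : Finset ℕ) (t : ℕ → ℝ) :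
    Real.exp (∑ n ∈ s, t n) ≤ 1 + ∑ n ∈ s, Real.exp (s.card * t n) := by
  rcases s.eq_empty_or_nonempty with rfl | hs
  · simp
  obtain ⟨m, hm, hmax⟩ := s.exists_max_image t hs
  have h1 : ∑ n ∈ s, t n ≤ s.card * t m := by
    calc ∑ n ∈ s, t n ≤ ∑ n ∈ s, t m := Finset.sum_le_sum fun n hn => hmax n hn
      _ = s.card * t m := by rw [Finset.sum_const, nsmul_eq_mul]
  have h2 : Real.exp (s.card * t m) ≤ ∑ n ∈ s, Real.exp (s.card * t n) :=
    Finset.single_le_sum (f := fun n => Real.exp (s.card * t n)) (fun n _ => (Real.exp_pos _).le) hm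
  have h3 := Real.exp_le_exp.mpr h1
  linarith

/-- exponential of a finite sum of linear functions of coordinates is square integrable -/
lemma memLp_exp_sum (h : Good hc μ) (c d : ℝ) (s : Finset ℕ) (y : ℕ → Fin 2 → ℤ) :
    MemLp (fun w : ℕ → (Fin 2 → ℤ) → ℝ => Real.exp (∑ n ∈ s, (c * w n (y n) + d))) 2 (PP μ) := by
  haveI := prob_PP h
  have hm : Measurable (fun w : ℕ → (Fin 2 → ℤ) → ℝ => Real.exp (∑ n ∈ s, (c * w n (y n) + d))) := by
    have : ∀ n, Measurable (fun w : ℕ → (Fin 2 → ℤ) → ℝ => w n (y n)) := fun n =>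
      (measurable_pi_apply (y n)).comp (measurable_pi_apply n)
    refine Real.measurable_exp.comp (Finset.measurable_sum _ fun n _ => ?_)
    exact ((this n).const_mul c).add_const d
  have hb : MemLp (fun w : ℕ → (Fin 2 → ℤ) → ℝ =>
      1 + ∑ n ∈ s, Real.exp (s.card * (c * w n (y n) + d))) 2 (PP μ) := by
    refine (memLp_const (1 : ℝ)).add ?_
    refine memLp_finsetSum _ fun n _ => ?_
    have e : (fun w : ℕ → (Fin 2 → ℤ) → ℝ => Real.exp ((s.card : ℝ) * (c * w n (y n) + d))) =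
        fun w => Real.exp (((s.card : ℝ) * c) * w n (y n) + (s.card : ℝ) * d) := by
      funext w
      congr 1
      ring
    rw [e]
    exact memLp_exp h (s.card * c) (s.card * d) n (y n)
  refine hb.mono hm.aestronglyMeasurable (ae_of_all _ fun w => ?_)
  have h1 := exp_sum_le s (fun n => c * w n (y n) + d)
  rw [Real.norm_of_nonneg (Real.exp_pos _).le, Real.norm_of_nonneg (by positivity)]
  exact h1

lemma integral_exp_sum (h : Good hc μ) (β : ℝ) (s : Finset ℕ) (y : ℕ → Fin 2 → ℤ) :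
    ∫ w, Real.exp (∑ n ∈ s, (β * w n (y n) + (-(β ^ 2 / 2)))) ∂(PP μ) = 1 := by
  haveI := h.prob
  have hm : ∀ n, Measurable (fun t : (Fin 2 → ℤ) → ℝ => Real.exp (β * t (y n) + (-(β ^ 2 / 2)))) := by
    intro n
    have : Measurable (fun t : (Fin 2 → ℤ) → ℝ => t (y n)) := measurable_pi_apply (y n)
    fun_prop
  have e : (fun w : ℕ → (Fin 2 → ℤ) → ℝ => Real.exp (∑ n ∈ s, (β * w n (y n) + (-(β ^ 2 / 2))))) =
      fun w => (fun v : (i : s) → (Fin 2 → ℤ) → ℝ =>
        ∏ i : s, Real.exp (β * v i (y i) + (-(β ^ 2 / 2)))) (s.restrict w) := by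
    funext w
    rw [Real.exp_sum, ← Finset.prod_coe_sort]
    rfl
  unfold PP
  rw [e, integral_restrict_infinitePi (μ := fun _ : ℕ => μ)
    (f := fun v : (i : s) → (Fin 2 → ℤ) → ℝ => ∏ i : s, Real.exp (β * v i (y i) + (-(β ^ 2 / 2))))]
  · rw [integral_fintype_prod_eq_prod
      (f := fun (i : s) (t : (Fin 2 → ℤ) → ℝ) => Real.exp (β * t (y i) + (-(β ^ 2 / 2))))]
    refine Finset.prod_eq_one fun i _ => ?_
    have h1 : (fun t : (Fin 2 → ℤ) → ℝ => Real.exp (β * t (y i) + (-(β ^ 2 / 2)))) =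
        fun t => Real.exp (β * t (y i)) * Real.exp (-(β ^ 2 / 2)) := by
      funext t; rw [Real.exp_add]
    rw [h1, integral_mul_const, h.mgf, ← Real.exp_add]
    simp
  · refine Measurable.aestronglyMeasurable ?_
    refine Finset.measurable_prod _ fun i _ => ?_
    exact (hm i).comp (measurable_pi_apply i)

/-- the partition function in path form -/
lemma W_eq (hPath : TaskPath) (β : ℝ) (N : ℕ) (x : Fin 2 → ℤ) (w : ℕ → (Fin 2 → ℤ) → ℝ) :
    W β N x w = ((4 : ℝ) ^ N)⁻¹ * ∑ σ : Fin N → Fin 2 × Bool,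
      Real.exp (∑ n ∈ Icc 1 N, (β * w n (x + pos σ n) + (-(β ^ 2 / 2)))) := by
  unfold W
  rw [← hPath]
  rfl

theorem taskInt (hPath : TaskPath) : TaskInt := by
  intro hc μ h β N
  haveI := prob_PP h
  have hL : ∀ x, MemLp (W β N x) 2 (PP μ) := by
    intro x
    have e : W β N x = fun w => ((4 : ℝ) ^ N)⁻¹ * ∑ σ : Fin N → Fin 2 × Bool,
        Real.exp (∑ n ∈ Icc 1 N, (β * w n (x + pos σ n) + (-(β ^ 2 / 2)))) :=
      funext fun w => W_eq hPath β N x w
    rw [e]
    exact (memLp_finsetSum _ fun σ _ => memLp_exp_sum h β (-(β ^ 2 / 2)) (Icc 1 N)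
      (fun n => x + pos σ n)).const_mul _
  have hmeas : ∀ x, Measurable (W β N x) := by
    intro x
    have e : W β N x = fun w => ((4 : ℝ) ^ N)⁻¹ * ∑ σ : Fin N → Fin 2 × Bool,
        Real.exp (∑ n ∈ Icc 1 N, (β * w n (x + pos σ n) + (-(β ^ 2 / 2)))) :=
      funext fun w => W_eq hPath β N x w
    rw [e]
    refine Measurable.const_mul (Finset.measurable_sum _ fun σ _ => ?_) _
    refine Real.measurable_exp.comp (Finset.measurable_sum _ fun n _ => ?_)
    have : Measurable (fun w : ℕ → (Fin 2 → ℤ) → ℝ => w n (x + pos σ n)) :=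
      (measurable_pi_apply _).comp (measurable_pi_apply n)
    exact (this.const_mul β).add_const _
  have hcard : Fintype.card (Fin N → Fin 2 × Bool) = 4 ^ N := by simp
  refine ⟨hmeas, hL, ?_, ?_⟩
  · intro x
    have e : (fun w => W β N x w) = fun w => ((4 : ℝ) ^ N)⁻¹ * ∑ σ : Fin N → Fin 2 × Bool,
        Real.exp (∑ n ∈ Icc 1 N, (β * w n (x + pos σ n) + (-(β ^ 2 / 2)))) :=
      funext fun w => W_eq hPath β N x w
    rw [e, integral_const_mul, integral_finsetSum]
    · rw [Finset.sum_congr rfl fun σ _ => integral_exp_sum h β (Icc 1 N) (fun n => x + pos σ n)]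
      rw [Finset.sum_const, Finset.card_univ, hcard]
      simp
    · intro σ _
      exact (memLp_exp_sum h β (-(β ^ 2 / 2)) (Icc 1 N) (fun n => x + pos σ n)).integrable one_le_two
  · -- the logarithm
    let σ₀ : Fin N → Fin 2 × Bool := fun _ => (0, true)
    have hlow : ∀ w, ((4 : ℝ) ^ N)⁻¹ *
        Real.exp (∑ n ∈ Icc 1 N, (β * w n (0 + pos σ₀ n) + (-(β ^ 2 / 2)))) ≤ W β N 0 w := by
      intro w
      rw [W_eq hPath]
      refine mul_le_mul_of_nonneg_left ?_ (by positivity)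
      exact Finset.single_le_sum (f := fun σ : Fin N → Fin 2 × Bool =>
        Real.exp (∑ n ∈ Icc 1 N, (β * w n (0 + pos σ n) + (-(β ^ 2 / 2)))))
        (fun σ _ => (Real.exp_pos _).le) (Finset.mem_univ σ₀)
    have hpos : ∀ w, 0 < W β N 0 w := fun w => lt_of_lt_of_le (by positivity) (hlow w)
    have hinv : ∀ w, (W β N 0 w)⁻¹ ≤ (4 : ℝ) ^ N *
        Real.exp (∑ n ∈ Icc 1 N, ((-β) * w n (0 + pos σ₀ n) + (β ^ 2 / 2))) := by
      intro w
      have h1 := inv_anti₀ (by positivity) (hlow w)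
      refine h1.trans (le_of_eq ?_)
      rw [mul_inv, inv_inv, ← Real.exp_neg, ← Finset.sum_neg_distrib]
      congr 2
      refine Finset.sum_congr rfl fun n _ => ?_
      ring
    have hb : MemLp (fun w => W β N 0 w + (4 : ℝ) ^ N *
        Real.exp (∑ n ∈ Icc 1 N, ((-β) * w n (0 + pos σ₀ n) + (β ^ 2 / 2)))) 2 (PP μ) :=
      (hL 0).add ((memLp_exp_sum h (-β) (β ^ 2 / 2) (Icc 1 N) (fun n => 0 + pos σ₀ n)).const_mul _)
    refine hb.mono ?_ (ae_of_all _ fun w => ?_)
    · exact (Real.measurable_log.comp (hmeas 0)).aestronglyMeasurable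
    · have hW := hpos w
      have h1 : Real.log (W β N 0 w) ≤ W β N 0 w - 1 := Real.log_le_sub_one_of_pos hW
      have h2 : - Real.log (W β N 0 w) ≤ (W β N 0 w)⁻¹ - 1 := by
        rw [← Real.log_inv]
        exact Real.log_le_sub_one_of_pos (inv_pos.mpr hW)
      have h3 := hinv w
      have h4 : 0 < (W β N 0 w)⁻¹ := inv_pos.mpr hW
      have h5 : (0 : ℝ) ≤ W β N 0 w + (4 : ℝ) ^ N *
        Real.exp (∑ n ∈ Icc 1 N, ((-β) * w n (0 + pos σ₀ n) + (β ^ 2 / 2))) := by positivity
      rw [Real.norm_of_nonneg h5, Real.norm_eq_abs, abs_le]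
      unfold LW
      constructor <;> linarith

end Pool.Agent.P8H81.LP.IntAux
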