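import Pool.Agent.P8H81.LP.GE

/-! Project LP: the law of the environment is determined by its finite linear combinations. -/

set_option autoImplicit false

open MeasureTheory ProbabilityTheory Filter Finset

namespace Pool.Agent.P8H81.LP

/-- two families with the same laws of all finite linear combinations have the same law -/
theorem law_ext {T Ω Ω' : Type} [MeasurableSpace Ω] [MeasurableSpace Ω'] (P : Measure Ω)
    (P' : Measure Ω') [IsProbabilityMeasure P] [IsProbabilityMeasure P']
    (X : T → Ω → ℝ) (Y : T → Ω' → ℝ) (hX : ∀ t, Measurable (X t)) (hY : ∀ t, Measurable (Y t))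
    (h : ∀ (s : Finset T) (a : T → ℝ),
      P.map (fun o => ∑ t ∈ s, a t * X t o) = P'.map (fun o => ∑ t ∈ s, a t * Y t o)) :
    P.map (fun o t => X t o) = P'.map (fun o t => Y t o) := by
  classical
  have hmX : Measurable (fun o t => X t o) := measurable_pi_lambda _ hX
  have hmY : Measurable (fun o t => Y t o) := measurable_pi_lambda _ hY
  have : IsProbabilityMeasure (P.map (fun o t => X t o)) := Measure.isProbabilityMeasure_map hmX.aemeasurable
  have : IsProbabilityMeasure (P'.map (fun o t => Y t o)) := Measure.isProbabilityMeasure_map hmY.aemeasurable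
  have key : ∀ I : Finset T, (P.map (fun o t => X t o)).map I.restrict =
      (P'.map (fun o t => Y t o)).map I.restrict := by
    intro I
    have hmI : Measurable (I.restrict (π := fun _ : T => ℝ)) := Finset.measurable_restrict I
    refine Measure.ext_of_charFunDual ?_
    ext L
    rw [charFunDual_eq_charFun_map_one, charFunDual_eq_charFun_map_one]
    congr 1
    have hLm : Measurable (fun v : I → ℝ => L v) := L.continuous.measurable
    rw [Measure.map_map hLm hmI, Measure.map_map hLm hmI, Measure.map_map (hLm.comp hmI) hmX,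
      Measure.map_map (hLm.comp hmI) hmY]
    set a : T → ℝ := fun x =>
      if h : x ∈ I then L (fun j => if (⟨x, h⟩ : I) = j then 1 else 0) else 0 with ha
    have hL : ∀ v : T → ℝ, L (I.restrict v) = ∑ x ∈ I, a x * v x := by
      intro v
      have h3 := LinearMap.pi_apply_eq_sum_univ (L : (I → ℝ) →ₗ[ℝ] ℝ) (I.restrict v)
      have h4 : (L : (I → ℝ) →ₗ[ℝ] ℝ) (I.restrict v) = L (I.restrict v) := rfl
      rw [← h4, h3, ← Finset.sum_coe_sort I (fun x => a x * v x)]
      refine Finset.sum_congr rfl fun i _ => ?_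
      have h5 : a i.1 = L (fun j => if i = j then 1 else 0) := by
        simp only [ha]
        rw [dif_pos i.2]
      rw [h5, smul_eq_mul, mul_comm]
      rfl
    have e1 : ((fun v : I → ℝ => L v) ∘ (I.restrict (π := fun _ : T => ℝ))) ∘ (fun o t => X t o) =
        fun o => ∑ t ∈ I, a t * X t o := by
      funext o
      exact hL _
    have e2 : ((fun v : I → ℝ => L v) ∘ (I.restrict (π := fun _ : T => ℝ))) ∘ (fun o t => Y t o) =
        fun o => ∑ t ∈ I, a t * Y t o := by
      funext o
      exact hL _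
    rw [e1, e2]
    exact h I a
  have hfin : ∀ I : Finset T, IsFiniteMeasure ((P'.map (fun o t => Y t o)).map I.restrict) :=
    fun I => Measure.isFiniteMeasure_map _ _
  exact IsProjectiveLimit.unique (P := fun I => (P'.map (fun o t => Y t o)).map I.restrict)
    (fun I => key I) (fun I => rfl)

/-- the law of the environment -/
theorem law_env (hc : (Fin 2 → ℤ) → ℝ)
    (hpsd : ∀ (s : Finset (Fin 2 → ℤ)) (a : (Fin 2 → ℤ) → ℝ),
      0 ≤ ∑ x ∈ s, ∑ y ∈ s, a x * a y * hc (x - y))
    {Ω : Type} [MeasurableSpace Ω] (P : Measure Ω) [IsProbabilityMeasure P]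
    (ω : ℕ → (Fin 2 → ℤ) → Ω → ℝ) (hm : ∀ n x, Measurable (ω n x))
    (hlin : ∀ (s : Finset (ℕ × (Fin 2 → ℤ))) (a : ℕ × (Fin 2 → ℤ) → ℝ),
      P.map (fun w => ∑ i ∈ s, a i * ω i.1 i.2 w) =
        gaussianReal 0 (Real.toNNReal (∑ i ∈ s, ∑ j ∈ s,
          a i * a j * (if i.1 = j.1 then hc (i.2 - j.2) else 0)))) :
    ∃ μ : Measure ((Fin 2 → ℤ) → ℝ), IsProbabilityMeasure μ ∧ GLin μ (fun x y => hc (x - y)) ∧
      P.map (fun o n x => ω n x o) = PP μ := by
  classical
  have hm0 : Measurable (fun o x => ω 0 x o) := measurable_pi_lambda _ fun x => hm 0 x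
  have hμ : IsProbabilityMeasure (P.map (fun o x => ω 0 x o)) :=
    Measure.isProbabilityMeasure_map hm0.aemeasurable
  have hG : GLin (P.map (fun o x => ω 0 x o)) (fun x y => hc (x - y)) := by
    intro s a
    have hms : Measurable (fun v : (Fin 2 → ℤ) → ℝ => ∑ x ∈ s, a x * v x) := by fun_prop
    rw [Measure.map_map hms hm0]
    have h1 := hlin (s.map ⟨fun x => (0, x), fun x y h => (Prod.ext_iff.1 h).2⟩) (fun i => a i.2)
    simp only [Finset.sum_map, Function.Embedding.coeFn_mk, if_true] at h1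
    exact h1
  refine ⟨P.map (fun o x => ω 0 x o), hμ, hG, ?_⟩
  set μ := P.map (fun o x => ω 0 x o) with hμd
  have hPP : IsProbabilityMeasure (PP μ) := by unfold PP; infer_instance
  have h2 := law_ext P (PP μ) (fun (t : ℕ × (Fin 2 → ℤ)) o => ω t.1 t.2 o)
    (fun t w => w t.1 t.2) (fun t => hm t.1 t.2) (fun t => by fun_prop) (fun s a => by
      rw [hlin s a, GEAux.taskGE μ _ hμ hG hpsd s a])
  have hcur : Measurable (fun (v : ℕ × (Fin 2 → ℤ) → ℝ) (n : ℕ) (x : Fin 2 → ℤ) => v (n, x)) :=
    measurable_pi_lambda _ fun n => measurable_pi_lambda _ fun x => measurable_pi_apply (n, x)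
  have h3 := congrArg (fun M => M.map
    (fun (v : ℕ × (Fin 2 → ℤ) → ℝ) (n : ℕ) (x : Fin 2 → ℤ) => v (n, x))) h2
  rw [Measure.map_map hcur (measurable_pi_lambda _ fun t => hm t.1 t.2),
    Measure.map_map hcur (measurable_pi_lambda _ fun t => by fun_prop)] at h3
  have h4 : (PP μ).map ((fun (v : ℕ × (Fin 2 → ℤ) → ℝ) (n : ℕ) (x : Fin 2 → ℤ) => v (n, x)) ∘
      (fun (w : ℕ → (Fin 2 → ℤ) → ℝ) (t : ℕ × (Fin 2 → ℤ)) => w t.1 t.2)) = PP μ := Measure.map_id
  rw [h4] at h3
  exact h3

end Pool.Agent.P8H81.LP
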