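import Pool.Agent.P8H81.LP.Defs

set_option autoImplicit false

open MeasureTheory ProbabilityTheory Filter Finset

namespace Pool.Agent.P8H81.LP

variable {hc : (Fin 2 → ℤ) → ℝ}

theorem Wr_pos (N : ℕ) : ∀ (V : ℕ → (Fin 2 → ℤ) → ℝ) (x : Fin 2 → ℤ), 0 < Wr N V x := by
  induction N with
  | zero => intro V x; simp [Wr]
  | succ N ih =>
    intro V x
    unfold Wr
    apply mul_pos (by norm_num)
    apply Finset.sum_pos
    · intro e _
      exact mul_pos (Real.exp_pos _) (ih _ _)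
    · exact Finset.univ_nonempty

theorem W_pos (β : ℝ) (N : ℕ) (x : Fin 2 → ℤ) (w : ℕ → (Fin 2 → ℤ) → ℝ) : 0 < W β N x w :=
  Wr_pos _ _ _

theorem isProb {μ : Measure ((Fin 2 → ℤ) → ℝ)} (h : Good hc μ) : IsProbabilityMeasure (PP μ) := by
  have := h.prob
  unfold PP; infer_instance

theorem mean_nonpos (hInt : TaskInt) {μ : Measure ((Fin 2 → ℤ) → ℝ)} (h : Good hc μ) (β : ℝ) (N : ℕ) :
    ∫ w, LW β N w ∂(PP μ) ≤ 0 := by
  have hp := isProb h
  obtain ⟨hm, hW, h1, hL⟩ := hInt μ h β N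
  have hWi : Integrable (W β N 0) (PP μ) := (hW 0).integrable (by norm_num)
  have hLi : Integrable (LW β N) (PP μ) := hL.integrable (by norm_num)
  have h2 : ∫ w, LW β N w ∂(PP μ) ≤ ∫ w, (W β N 0 w - 1) ∂(PP μ) := by
    apply integral_mono hLi (hWi.sub (integrable_const _))
    intro w
    exact Real.log_le_sub_one_of_pos (W_pos _ _ _ _)
  rw [integral_sub hWi (integrable_const _), h1 0] at h2
  simpa using h2

theorem taskLim : TaskLim := by
  intro hSup hPath hInt hc μ good β hβ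
  have hsub : Subadditive (fun N : ℕ => -(∫ w, LW β N w ∂(PP μ))) := by
    intro m n
    have := hSup hPath hInt μ good β hβ m n
    linarith
  have hbdd : BddBelow (Set.range (fun n : ℕ => (fun N : ℕ => -(∫ w, LW β N w ∂(PP μ))) n / (n : ℝ))) := by
    refine ⟨0, ?_⟩
    rintro _ ⟨n, rfl⟩
    have := mean_nonpos hInt good β n
    apply div_nonneg (by simpa using this) (Nat.cast_nonneg _)
  have ht := hsub.tendsto_lim hbdd
  have ht2 : Tendsto (fun N : ℕ => (∫ w, LW β N w ∂(PP μ)) / (N : ℝ)) atTop (nhds (-hsub.lim)) := by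
    refine ht.neg.congr ?_
    intro N
    ring
  refine ⟨-hsub.lim, ?_, ?_, ht2⟩
  swap
  · intro N hN
    have h3 := hsub.lim_le_div hbdd (n := N) (by omega)
    have h4 : (∫ w, LW β N w ∂(PP μ)) / (N : ℝ) = -(-(∫ w, LW β N w ∂(PP μ)) / (N : ℝ)) := by ring
    rw [h4]
    exact neg_le_neg h3
  apply le_of_tendsto' ht2
  intro N
  exact div_nonpos_of_nonpos_of_nonneg (mean_nonpos hInt good β N) (Nat.cast_nonneg _)

end Pool.Agent.P8H81.LP
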