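import Pool.Agent.P8H81.LP.Stm2

/-! Project LP, second part: assembly of the lower bound of `-p(β)`. -/

set_option autoImplicit false

open MeasureTheory ProbabilityTheory Filter Finset

namespace Pool.Agent.P8H81.LP

theorem EV_mono (N : ℕ) {F G : (Fin N → Fin 2 × Bool) → ℝ} (h : ∀ σ, F σ ≤ G σ) : EV N F ≤ EV N G := by
  unfold EV
  exact mul_le_mul_of_nonneg_left (Finset.sum_le_sum fun σ _ => h σ) (by positivity)

theorem EV_nonneg (N : ℕ) {F : (Fin N → Fin 2 × Bool) → ℝ} (h : ∀ σ, 0 ≤ F σ) : 0 ≤ EV N F := by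
  unfold EV
  exact mul_nonneg (by positivity) (Finset.sum_nonneg fun σ _ => h σ)

theorem lower (hSUB : S_SUB) (hJEN : S_JEN) (hTLT : S_TLT) (hPTH : S_PTH) (hMGF : S_MGF)
    (hEXM : S_EXM) (hSPR : S_SPR) (hLOW : S_LOW) (hDBL : S_DBL) (hSUM : TaskSum) (hCHB : S_CHB)
    (hMRK : S_MRK) (hSLO : S_SLO) (hSUPP : S_SUPP) (hNUM : S_NUM) (hPath : TaskPath)
    (hInt : TaskInt) (a : ℝ) (ha : -1 < a) (hc : (Fin 2 → ℤ) → ℝ) (h0 : hc 0 = 1)
    (hnn : ∀ x, 0 ≤ hc x) (hsym : ∀ x, hc (-x) = hc x)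
    (hpsd : ∀ (s : Finset (Fin 2 → ℤ)) (b : (Fin 2 → ℤ) → ℝ),
      0 ≤ ∑ x ∈ s, ∑ y ∈ s, b x * b y * hc (x - y))
    (hdec : Tendsto (fun x : Fin 2 → ℤ => hc x * ((x 0 : ℝ) ^ 2 + (x 1 : ℝ) ^ 2) /
      (Real.log (√((x 0 : ℝ) ^ 2 + (x 1 : ℝ) ^ 2))) ^ a) cofinite (nhds 1))
    (μ : Measure ((Fin 2 → ℤ) → ℝ)) (hμ : IsProbabilityMeasure μ)
    (hG : GLin μ (fun x y => hc (x - y))) (good : Good hc μ) :
    ∃ C b₀ : ℝ, 0 < C ∧ 0 < b₀ ∧ ∀ β : ℝ, 0 < β → β < b₀ → ∀ p : ℝ,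
      Tendsto (fun N : ℕ => (∫ w, LW β N w ∂(PP μ)) / (N : ℝ)) atTop (nhds p) →
      p ≤ -Real.exp (-(C / β) ^ (2 / (a + 1))) := by
  obtain ⟨κ, R₀, hκ, hlow⟩ := hLOW a ha hc hnn hdec
  obtain ⟨CE, hCE, hdbl⟩ := hDBL hSUM a ha hc hnn hdec
  obtain ⟨C₀, hC₀, hspr⟩ := hSPR hEXM
  obtain ⟨c, hc0, hslo⟩ := hSLO a ha
  obtain ⟨B, hB1, hBR, hnum⟩ := hNUM a κ C₀ CE c R₀ ha hκ hC₀ hCE hc0
  obtain ⟨C₁, N₁, hC₁, hsupp⟩ := hSUPP a ha B hB1
  obtain ⟨N₂, hN₂⟩ := hslo B hB1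
  obtain ⟨C, b₀, hC, hb, hfin⟩ := hnum C₁ (max N₁ N₂) hC₁
  refine ⟨C, b₀, hC, hb, fun β hβ hβb p hp => ?_⟩
  obtain ⟨N, δ, hN8, hN0, hδ, hexp, hA⟩ := hfin β hβ hβb
  have hNpos : (0 : ℝ) < N := by
    have : 0 < N := by omega
    exact_mod_cast this
  have hlog : 2 < Real.log N := by
    have h8 : Real.log 8 ≤ Real.log N := Real.log_le_log (by norm_num) (by exact_mod_cast hN8)
    have h82 : Real.log 8 = 3 * Real.log 2 := by
      rw [show (8 : ℝ) = 2 ^ (3 : ℕ) by norm_num, Real.log_pow]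
      norm_num
    have := Real.log_two_gt_d9
    linarith
  set θ : ℝ := 1 - 1 / Real.log N with hθ
  have hinv : 1 / Real.log N < 1 / 2 := one_div_lt_one_div_of_lt (by norm_num) hlog
  have hinv0 : 0 < 1 / Real.log N := by positivity
  have hθ0 : 0 < θ := by rw [hθ]; linarith
  have hθ1 : θ < 1 := by rw [hθ]; linarith
  have hAA : AA μ β θ N ≤ Real.exp (-1) := by
    set q : ℕ → ℝ := fun n => δ / n with hq
    set G : ℝ := ∑ n ∈ Icc 1 N, (q n) ^ 2 * dbl hc (rad B n) with hGd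
    have hrad : ∀ n, 1 ≤ rad B n := fun n => by
      unfold rad
      exact Nat.one_le_iff_ne_zero.2 (Nat.mul_ne_zero (by omega) (by omega))
    have hBrad : ∀ n, B ≤ rad B n := fun n => by
      unfold rad
      exact Nat.le_mul_of_pos_right B (by omega)
    have hGle : G ≤ δ ^ 2 * (CE * (C₁ * (Real.log N) ^ (a + 2))) := by
      calc G ≤ ∑ n ∈ Icc 1 N, δ ^ 2 * (CE * ((1 / (n : ℝ)) ^ 2 *
            ((rad B n : ℝ) ^ 2 * (Real.log (2 + rad B n)) ^ (a + 1)))) := by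
            rw [hGd]
            refine Finset.sum_le_sum fun n _ => ?_
            refine (mul_le_mul_of_nonneg_left (hdbl (rad B n) (hrad n)) (sq_nonneg _)).trans
              (le_of_eq ?_)
            rw [hq]
            ring
        _ = δ ^ 2 * (CE * ∑ n ∈ Icc 1 N, (1 / (n : ℝ)) ^ 2 *
            ((rad B n : ℝ) ^ 2 * (Real.log (2 + rad B n)) ^ (a + 1))) := by
            rw [Finset.mul_sum, Finset.mul_sum]
        _ ≤ δ ^ 2 * (CE * (C₁ * (Real.log N) ^ (a + 2))) := by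
            refine mul_le_mul_of_nonneg_left ?_ (sq_nonneg _)
            refine mul_le_mul_of_nonneg_left ?_ hCE.le
            exact hsupp N ((le_max_left _ _).trans hN0)
    have hS : c * (Real.log N) ^ (a + 2) ≤ SS a B N := hN₂ N ((le_max_right _ _).trans hN0)
    have hfinal := hA θ hθ G (SS a B N) hGle hS
    set F : (Fin N → Fin 2 × Bool) → ℝ := fun σ =>
      Real.exp (-β * ∑ n ∈ Icc 1 N, q n * ∑ y ∈ box (rad B n), hc (pos σ n - y)) with hF
    have hEV : EV N (fun σ => (F σ) ^ 2) ≤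
        Real.exp (-(2 * β * δ * κ) * (SS a B N) / 2) + 2 / (B : ℝ) ^ 2 := by
      refine le_trans (EV_mono N fun σ => ?_) (hMRK hCHB N B hB1
        (fun n => (1 / (n : ℝ)) * (Real.log (rad B n)) ^ (a + 1)) (fun n => ?_) (2 * β * δ * κ)
        (by positivity))
      · show (F σ) ^ 2 ≤ _
        rw [hF, ← Real.exp_nat_mul]
        refine Real.exp_le_exp.2 ?_
        have hterm : ∀ n ∈ Icc 1 N, δ * κ * ((1 / (n : ℝ)) * (Real.log (rad B n)) ^ (a + 1) *
            (if pos σ n ∈ box (rad B n) then 1 else 0)) ≤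
            q n * ∑ y ∈ box (rad B n), hc (pos σ n - y) := by
          intro n _
          have hn0 : (0 : ℝ) ≤ (n : ℝ) := Nat.cast_nonneg n
          split_ifs with hin
          · have h1 := hlow (rad B n) (hBR.trans (hBrad n)) _ hin
            calc δ * κ * ((1 / (n : ℝ)) * (Real.log (rad B n)) ^ (a + 1) * 1)
                = (δ / n) * (κ * (Real.log (rad B n)) ^ (a + 1)) := by ring
              _ ≤ (δ / n) * ∑ y ∈ box (rad B n), hc (pos σ n - y) :=
                  mul_le_mul_of_nonneg_left h1 (by positivity)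
          · have h2 : 0 ≤ ∑ y ∈ box (rad B n), hc (pos σ n - y) :=
              Finset.sum_nonneg fun y _ => hnn _
            have h3 : 0 ≤ q n * ∑ y ∈ box (rad B n), hc (pos σ n - y) :=
              mul_nonneg (by rw [hq]; positivity) h2
            simpa using h3
        have hsum := Finset.sum_le_sum hterm
        rw [← Finset.mul_sum] at hsum
        have h4 := mul_le_mul_of_nonneg_left hsum (by positivity : (0 : ℝ) ≤ 2 * β)
        push_cast
        linarith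
      · have h1 : (1 : ℝ) ≤ rad B n := by exact_mod_cast hrad n
        have h2 := Real.log_nonneg h1
        positivity
    have hE0 : 0 ≤ EV N (fun σ => (F σ) ^ 2) := EV_nonneg N fun σ => sq_nonneg _
    calc AA μ β θ N ≤ ∑ x ∈ box N, Real.exp (θ / (1 - θ) * G / 2) * (QQ N F x) ^ θ := by
          unfold AA
          exact Finset.sum_le_sum fun x _ =>
            hTLT hPTH hMGF hc h0 hsym hpsd μ hμ hG β θ N q (rad B) hθ0 hθ1 x
      _ = Real.exp (θ / (1 - θ) * G / 2) * ∑ x ∈ box N, (QQ N F x) ^ θ :=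
          (Finset.mul_sum _ _ _).symm
      _ ≤ Real.exp (θ / (1 - θ) * G / 2) * (C₀ * (EV N (fun σ => (F σ) ^ 2)) ^ (θ / 2)) := by
          refine mul_le_mul_of_nonneg_left ?_ (Real.exp_pos _).le
          exact hspr N hN8 F fun σ => (Real.exp_pos _).le
      _ ≤ Real.exp (θ / (1 - θ) * G / 2) *
          (C₀ * (Real.exp (-(2 * β * δ * κ) * (SS a B N) / 2) + 2 / (B : ℝ) ^ 2) ^ (θ / 2)) := by
          refine mul_le_mul_of_nonneg_left ?_ (Real.exp_pos _).le
          refine mul_le_mul_of_nonneg_left ?_ hC₀.le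
          exact Real.rpow_le_rpow hE0 hEV (by linarith)
      _ ≤ Real.exp (-1) := hfinal
  have hJ := hJEN hSUB hPath hInt μ good β θ hβ hθ0 hθ1 N (by omega) p (Real.exp (-1))
    (Real.exp_pos _) hAA hp
  rw [Real.log_exp] at hJ
  have h1 : 1 / (N : ℝ) ≤ 1 / (θ * N) := by
    apply one_div_le_one_div_of_le (by positivity)
    nlinarith
  have h2 : -1 / (θ * (N : ℝ)) = -(1 / (θ * N)) := by ring
  rw [h2] at hJ
  linarith

end Pool.Agent.P8H81.LP
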