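import Pool.Agent.P8H81.LP.Defs

/-! Task MOM of project H111-CP (the second moment), by helper77. -/

set_option autoImplicit false

open MeasureTheory ProbabilityTheory Filter Finset

namespace Pool.Agent.P8H81.LP.MomAux

variable {hc : (Fin 2 → ℤ) → ℝ}

open Pool.Agent.P8H81.LP

/-- insert a slice at time one -/
def ins {S : Type} (z : S × (ℕ → S)) : ℕ → S :=
  fun n => if n = 0 then z.2 0 else if n = 1 then z.1 else z.2 (n - 1)

/-- the times different from one -/
def dd (m : ℕ) : ℕ := if m = 0 then 0 else m + 1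

theorem dd_inj : Function.Injective dd := by
  intro a b h
  unfold dd at h
  split_ifs at h <;> omega

theorem dd_ne (m : ℕ) : dd m ≠ 1 := by
  unfold dd; split_ifs <;> omega

theorem dd_surj (n : ℕ) (hn : n ≠ 1) : ∃ m, dd m = n := by
  unfold dd
  rcases Nat.eq_zero_or_pos n with h | h
  · exact ⟨0, by simp [h]⟩
  · refine ⟨n - 1, ?_⟩
    have : n - 1 ≠ 0 := by omega
    rw [if_neg this]; omega

theorem ins_dd {S : Type} (z : S × (ℕ → S)) (m : ℕ) : ins z (dd m) = z.2 m := by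
  unfold ins dd
  rcases Nat.eq_zero_or_pos m with h | h
  · simp [h]
  · have h0 : m ≠ 0 := by omega
    simp [h0]

theorem ins_one {S : Type} (z : S × (ℕ → S)) : ins z 1 = z.1 := by
  simp [ins]

theorem ins_meas {S : Type} [MeasurableSpace S] : Measurable (ins : S × (ℕ → S) → ℕ → S) := by
  rw [measurable_pi_iff]
  intro n
  unfold ins
  by_cases h0 : n = 0
  · simp only [h0, if_true]
    exact (measurable_pi_apply 0).comp measurable_snd
  · by_cases h1 : n = 1
    · simp only [h1, one_ne_zero, if_false, if_true]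
      exact measurable_fst
    · simp only [h0, h1, if_false]
      exact (measurable_pi_apply (n - 1)).comp measurable_snd

theorem ins_map {S : Type} [MeasurableSpace S] (μ : Measure S) [IsProbabilityMeasure μ] :
    (μ.prod (Measure.infinitePi (fun _ : ℕ => μ))).map ins = Measure.infinitePi (fun _ : ℕ => μ) := by
  apply Measure.eq_infinitePi
  intro s t ht
  classical
  have hms : MeasurableSet (Set.pi (s : Set ℕ) t) :=
    MeasurableSet.pi s.countable_toSet (fun i _ => ht i)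
  rw [Measure.map_apply ins_meas hms]
  have hpre : ins ⁻¹' (Set.pi (s : Set ℕ) t) =
      (if 1 ∈ s then t 1 else Set.univ) ×ˢ
        (Set.pi (((s.erase 1).preimage dd dd_inj.injOn : Finset ℕ) : Set ℕ) (fun m => t (dd m))) := by
    ext z
    simp only [Set.mem_preimage, Set.mem_pi, Set.mem_prod, Finset.mem_coe, Finset.mem_preimage,
      Finset.mem_erase]
    constructor
    · intro h
      refine ⟨?_, ?_⟩
      · split_ifs with h1
        · have := h 1 h1
          rwa [ins_one] at this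
        · trivial
      · intro m hm
        have := h (dd m) hm.2
        rwa [ins_dd] at this
    · rintro ⟨h1, h2⟩ n hn
      by_cases hn1 : n = 1
      · subst hn1
        rw [ins_one]
        rwa [if_pos hn] at h1
      · obtain ⟨m, rfl⟩ := dd_surj n hn1
        rw [ins_dd]
        exact h2 m ⟨hn1, hn⟩
  rw [hpre, Measure.prod_prod, Measure.infinitePi_pi _ (fun i _ => ht (dd i))]
  have hprod : ∏ i ∈ (s.erase 1).preimage dd dd_inj.injOn, μ (t (dd i)) = ∏ i ∈ s.erase 1, μ (t i) := by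
    apply Finset.prod_preimage dd (s.erase 1) dd_inj.injOn (fun i => μ (t i))
    intro x hx hx2
    exfalso
    apply hx2
    obtain ⟨m, hm⟩ := dd_surj x (Finset.ne_of_mem_erase hx)
    exact ⟨m, hm⟩
  rw [hprod]
  by_cases h1 : 1 ∈ s
  · rw [if_pos h1, Finset.mul_prod_erase s (fun i => μ (t i)) h1]
  · rw [if_neg h1, measure_univ, one_mul, Finset.erase_eq_of_notMem h1]

theorem Wr_congr (N : ℕ) : ∀ (V V' : ℕ → (Fin 2 → ℤ) → ℝ) (x : Fin 2 → ℤ),
    (∀ n, 1 ≤ n → V n = V' n) → Wr N V x = Wr N V' x := by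
  induction N with
  | zero => intro V V' x _; rfl
  | succ N ih =>
    intro V V' x h
    unfold Wr
    congr 1
    apply Finset.sum_congr rfl
    intro e _
    rw [h 1 le_rfl, ih (fun n => V (n + 1)) (fun n => V' (n + 1)) _ (fun n hn => h (n + 1) (by omega))]

theorem W_shift (β : ℝ) (N : ℕ) (x : Fin 2 → ℤ) (z : ((Fin 2 → ℤ) → ℝ) × (ℕ → (Fin 2 → ℤ) → ℝ)) :
    W β N x (fun n => ins z (n + 1)) = W β N x z.2 := by
  unfold W
  apply Wr_congr
  intro n hn
  funext y
  unfold Vb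
  have : ins z (n + 1) = z.2 n := by
    have := ins_dd z n
    have h0 : n ≠ 0 := by omega
    simpa [dd, h0] using this
  show β * ins z (n + 1) y - β ^ 2 / 2 = _
  rw [this]

theorem W_succ (β : ℝ) (N : ℕ) (x : Fin 2 → ℤ) (w : ℕ → (Fin 2 → ℤ) → ℝ) :
    W β (N + 1) x w = (1 / 4) * ∑ e : Fin 2 × Bool,
      Real.exp (β * w 1 (x + stp e) - β ^ 2 / 2) * W β N (x + stp e) (fun n => w (n + 1)) := rfl

theorem slice (μ : Measure ((Fin 2 → ℤ) → ℝ)) (h : Good hc μ) (β : ℝ) (x y : Fin 2 → ℤ) :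
    Integrable (fun s : (Fin 2 → ℤ) → ℝ => Real.exp (β * s x - β ^ 2 / 2) * Real.exp (β * s y - β ^ 2 / 2)) μ ∧
    ∫ s, Real.exp (β * s x - β ^ 2 / 2) * Real.exp (β * s y - β ^ 2 / 2) ∂μ = Real.exp (β ^ 2 * hc (x - y)) := by
  have h1 : ∀ s : (Fin 2 → ℤ) → ℝ, Real.exp (β * s x - β ^ 2 / 2) * Real.exp (β * s y - β ^ 2 / 2) =
      Real.exp (-β ^ 2) * Real.exp (β * (s x + s y)) := by
    intro s
    rw [← Real.exp_add, ← Real.exp_add]
    congr 1; ring
  have h2 := h.mgf2 β x y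
  have h3 : Integrable (fun s : (Fin 2 → ℤ) → ℝ => Real.exp (β * (s x + s y))) μ := by
    apply Integrable.of_integral_ne_zero
    rw [h2]
    exact (Real.exp_pos _).ne'
  simp only [h1]
  refine ⟨h3.const_mul _, ?_⟩
  rw [integral_const_mul, h2, ← Real.exp_add]
  congr 1; ring

/-- the second moment with two starting points -/
noncomputable def MM (μ : Measure ((Fin 2 → ℤ) → ℝ)) (β : ℝ) (N : ℕ) (x y : Fin 2 → ℤ) : ℝ :=
  ∫ w, W β N x w * W β N y w ∂(PP μ)

theorem MM_zero (μ : Measure ((Fin 2 → ℤ) → ℝ)) (h : Good hc μ) (β : ℝ) (x y : Fin 2 → ℤ) :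
    MM μ β 0 x y = 1 := by
  have := h.prob
  have hp : IsProbabilityMeasure (PP μ) := by unfold PP; infer_instance
  unfold MM
  have h1 : ∀ w : ℕ → (Fin 2 → ℤ) → ℝ, W β 0 x w * W β 0 y w = 1 := fun w => by
    show (1 : ℝ) * 1 = 1
    norm_num
  simp [h1]

theorem MM_succ (hI : TaskInt) (μ : Measure ((Fin 2 → ℤ) → ℝ)) (h : Good hc μ) (β : ℝ) (N : ℕ)
    (x y : Fin 2 → ℤ) :
    MM μ β (N + 1) x y = (1 / 16) * ∑ e : Fin 2 × Bool, ∑ e' : Fin 2 × Bool,
      Real.exp (β ^ 2 * hc ((x + stp e) - (y + stp e'))) * MM μ β N (x + stp e) (y + stp e') := by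
  have hpr := h.prob
  obtain ⟨hm, hL, -, -⟩ := hI μ h β N
  have hp : IsProbabilityMeasure (PP μ) := by unfold PP; infer_instance
  -- the integrand of one term, on the product space
  let G : (Fin 2 → ℤ) → (Fin 2 → ℤ) → (((Fin 2 → ℤ) → ℝ) × (ℕ → (Fin 2 → ℤ) → ℝ)) → ℝ :=
    fun a b z => (Real.exp (β * z.1 a - β ^ 2 / 2) * Real.exp (β * z.1 b - β ^ 2 / 2)) *
      (W β N a z.2 * W β N b z.2)
  have hint : ∀ a b, Integrable (fun v => W β N a v * W β N b v) (PP μ) := fun a b =>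
    (hL a).integrable_mul (hL b)
  have hG : ∀ a b, Integrable (G a b) (μ.prod (PP μ)) := fun a b =>
    Integrable.mul_prod (slice μ h β a b).1 (hint a b)
  have hGi : ∀ a b, ∫ z, G a b z ∂(μ.prod (PP μ)) = Real.exp (β ^ 2 * hc (a - b)) * MM μ β N a b := by
    intro a b
    have h1 := integral_prod_mul (μ := μ) (ν := PP μ)
      (fun s : (Fin 2 → ℤ) → ℝ => Real.exp (β * s a - β ^ 2 / 2) * Real.exp (β * s b - β ^ 2 / 2))
      (fun v => W β N a v * W β N b v)
    rw [(slice μ h β a b).2] at h1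
    exact h1
  have hmeas1 : ∀ a, Measurable (W β (N + 1) a) := (hI μ h β (N + 1)).1
  have hmap : (μ.prod (PP μ)).map ins = PP μ := ins_map μ
  have h0 : MM μ β (N + 1) x y = ∫ z, W β (N + 1) x (ins z) * W β (N + 1) y (ins z) ∂(μ.prod (PP μ)) := by
    unfold MM
    conv_lhs => rw [← hmap]
    rw [integral_map ins_meas.aemeasurable]
    exact ((hmeas1 x).mul (hmeas1 y)).aestronglyMeasurable
  have h2 : ∀ z : ((Fin 2 → ℤ) → ℝ) × (ℕ → (Fin 2 → ℤ) → ℝ),
      W β (N + 1) x (ins z) * W β (N + 1) y (ins z) =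
      (1 / 16) * ∑ e : Fin 2 × Bool, ∑ e' : Fin 2 × Bool, G (x + stp e) (y + stp e') z := by
    intro z
    rw [W_succ, W_succ]
    simp only [W_shift, ins_one]
    have h3 : ∀ (a b : ℝ), (1 / 4 * a) * (1 / 4 * b) = 1 / 16 * (a * b) := by intro a b; ring
    rw [h3, Finset.sum_mul_sum]
    congr 1
    apply Finset.sum_congr rfl
    intro e _
    apply Finset.sum_congr rfl
    intro e' _
    show _ = (Real.exp (β * z.1 (x + stp e) - β ^ 2 / 2) * Real.exp (β * z.1 (y + stp e') - β ^ 2 / 2)) *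
      (W β N (x + stp e) z.2 * W β N (y + stp e') z.2)
    ring
  rw [h0]
  simp only [h2]
  rw [integral_const_mul, integral_finsetSum _ (fun e _ => integrable_finsetSum _ (fun e' _ => hG _ _))]
  congr 1
  apply Finset.sum_congr rfl
  intro e _
  rw [integral_finsetSum _ (fun e' _ => hG _ _)]
  apply Finset.sum_congr rfl
  intro e' _
  exact hGi _ _


/-- the second moment as a function of the difference of the starting points -/
noncomputable def uu (hc : (Fin 2 → ℤ) → ℝ) (β : ℝ) : ℕ → (Fin 2 → ℤ) → ℝ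
  | 0, _ => 1
  | N + 1, z => TT (fun y => (1 + (Real.exp (β ^ 2 * hc y) - 1)) * uu hc β N y) z

theorem MM_eq (hI : TaskInt) (μ : Measure ((Fin 2 → ℤ) → ℝ)) (h : Good hc μ) (β : ℝ) (N : ℕ) :
    ∀ x y : Fin 2 → ℤ, MM μ β N x y = uu hc β N (x - y) := by
  induction N with
  | zero => intro x y; rw [MM_zero μ h]; rfl
  | succ N ih =>
    intro x y
    rw [MM_succ hI μ h]
    show _ = TT (fun y => (1 + (Real.exp (β ^ 2 * hc y) - 1)) * uu hc β N y) (x - y)
    unfold TT
    congr 1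
    refine Finset.sum_congr rfl fun e _ => Finset.sum_congr rfl fun e' _ => ?_
    have h1 : (x + stp e) - (y + stp e') = (x - y) + stp e - stp e' := by abel
    rw [ih, h1]
    show _ = (1 + (Real.exp (β ^ 2 * hc (x - y + stp e - stp e')) - 1)) * uu hc β N (x - y + stp e - stp e')
    ring

theorem exp_sub_one_le {x : ℝ} (h0 : 0 ≤ x) (h1 : x ≤ 1 / 2) : Real.exp x - 1 ≤ 2 * x := by
  have h2 : 1 - x ≤ Real.exp (-x) := by
    have := Real.add_one_le_exp (-x)
    linarith
  have h3 : Real.exp x * Real.exp (-x) = 1 := by rw [← Real.exp_add]; simp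
  have h4 : Real.exp x * (1 - x) ≤ 1 := by
    calc Real.exp x * (1 - x) ≤ Real.exp x * Real.exp (-x) :=
          mul_le_mul_of_nonneg_left h2 (Real.exp_pos x).le
      _ = 1 := h3
  have h5 := Real.exp_pos x
  nlinarith

end Pool.Agent.P8H81.LP.MomAux

namespace Pool.Agent.P8H81.LP

open MomAux

theorem taskMom : TaskMom := by
  intro hKer hSum hKhas hI a ha hc hnn htend
  obtain ⟨C, hC, hbd, hR⟩ := hSum a ha hc hnn htend
  refine ⟨16 * C, by positivity, ?_⟩
  intro μ h β hβ N hN hK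
  have h2 : ∫ w, (W β N 0 w) ^ 2 ∂(PP μ) = MM μ β N 0 0 := by
    unfold MM
    congr 1
    funext w
    ring
  rw [h2, MM_eq hI μ h]
  have hN1 : (1 : ℝ) ≤ N := by exact_mod_cast hN
  set L : ℝ := Real.log (2 + N) with hL
  have hL1 : 1 ≤ L := by
    rw [hL, Real.le_log_iff_exp_le (by positivity)]
    have := Real.exp_one_lt_d9
    linarith
  have hL0 : 0 < L := by linarith
  have hb2 : 0 < β ^ 2 := by positivity
  have hpow : 1 ≤ L ^ (a + 2) := Real.one_le_rpow hL1 (by linarith)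
  have hKb : 16 * C * β ^ 2 ≤ 1 := by
    refine le_trans ?_ hK
    exact le_mul_of_one_le_right (by positivity) hpow
  have hg0 : ∀ y, 0 ≤ Real.exp (β ^ 2 * hc y) - 1 := fun y => by
    have := Real.add_one_le_exp (β ^ 2 * hc y)
    have := mul_nonneg hb2.le (hnn y)
    linarith
  have hg2 : ∀ y, Real.exp (β ^ 2 * hc y) - 1 ≤ 2 * (β ^ 2 * hc y) := fun y => by
    apply exp_sub_one_le (mul_nonneg hb2.le (hnn y))
    have := mul_le_mul_of_nonneg_left (hbd y) hb2.le
    nlinarith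
  refine hKhas (fun y => Real.exp (β ^ 2 * hc y) - 1) (uu hc β) N hg0 (fun z => rfl)
    (fun n z => rfl) ?_ N le_rfl (0 - 0)
  intro z
  have hterm : ∀ n ∈ Icc 1 N, TT^[n] (fun y => Real.exp (β ^ 2 * hc y) - 1) z ≤
      (4 * β ^ 2 * C * L ^ (a + 1)) * (n : ℝ)⁻¹ := by
    intro n hn
    obtain ⟨hn1, hnN⟩ := Finset.mem_Icc.1 hn
    have hn0 : (0 : ℝ) < n := by exact_mod_cast hn1
    obtain ⟨hs, ho⟩ := hR n hn1
    have hM : 0 ≤ 2 * β ^ 2 * (C / n) := by positivity
    have h3 := hKer n hn1 (fun y => Real.exp (β ^ 2 * hc y) - 1) (box n) (2 * β ^ 2 * (C / n)) hg0 hM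
      (fun y hy => by
        have h4 := ho y hy
        have h5 := hg2 y
        have h6 := mul_le_mul_of_nonneg_left h4 (by positivity : (0 : ℝ) ≤ 2 * β ^ 2)
        show Real.exp (β ^ 2 * hc y) - 1 ≤ _
        linarith) z
    refine h3.trans ?_
    have h7 : ∑ y ∈ box n, (Real.exp (β ^ 2 * hc y) - 1) ≤ 2 * β ^ 2 * (C * L ^ (a + 1)) := by
      calc ∑ y ∈ box n, (Real.exp (β ^ 2 * hc y) - 1) ≤ ∑ y ∈ box n, 2 * (β ^ 2 * hc y) :=
            Finset.sum_le_sum fun y _ => hg2 y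
        _ = 2 * β ^ 2 * ∑ y ∈ box n, hc y := by
            rw [Finset.mul_sum]
            exact Finset.sum_congr rfl fun y _ => by ring
        _ ≤ 2 * β ^ 2 * (C * L ^ (a + 1)) := by
            refine mul_le_mul_of_nonneg_left (hs.trans ?_) (by positivity)
            refine mul_le_mul_of_nonneg_left ?_ hC.le
            refine Real.rpow_le_rpow (Real.log_nonneg (by linarith)) ?_ (by linarith)
            rw [hL]
            refine Real.log_le_log (by linarith) ?_
            have : (n : ℝ) ≤ N := by exact_mod_cast hnN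
            linarith
    have h8 : 1 ≤ L ^ (a + 1) := Real.one_le_rpow hL1 (by linarith)
    have h9 : (1 / (n : ℝ)) * ∑ y ∈ box n, (Real.exp (β ^ 2 * hc y) - 1) ≤
        (1 / (n : ℝ)) * (2 * β ^ 2 * (C * L ^ (a + 1))) :=
      mul_le_mul_of_nonneg_left h7 (by positivity)
    have h10 : 2 * β ^ 2 * (C / n) ≤ 2 * β ^ 2 * (C / n) * L ^ (a + 1) :=
      le_mul_of_one_le_right hM h8
    calc (1 / (n : ℝ)) * ∑ y ∈ box n, (Real.exp (β ^ 2 * hc y) - 1) + 2 * β ^ 2 * (C / n)
        ≤ (1 / (n : ℝ)) * (2 * β ^ 2 * (C * L ^ (a + 1))) + 2 * β ^ 2 * (C / n) * L ^ (a + 1) :=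
          add_le_add h9 h10
      _ = (4 * β ^ 2 * C * L ^ (a + 1)) * (n : ℝ)⁻¹ := by
          field_simp
          ring
  refine (Finset.sum_le_sum hterm).trans ?_
  rw [← Finset.mul_sum]
  have hharm : ∑ n ∈ Icc 1 N, ((n : ℝ))⁻¹ ≤ 2 * L := by
    have h1 := harmonic_le_one_add_log N
    have h3 : ((harmonic N : ℚ) : ℝ) = ∑ n ∈ Icc 1 N, ((n : ℝ))⁻¹ := by
      rw [harmonic_eq_sum_Icc]
      push_cast
      rfl
    rw [h3] at h1
    refine h1.trans ?_
    have h4 : Real.log N ≤ L := by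
      rw [hL]
      exact Real.log_le_log (by linarith) (by linarith)
    linarith
  have h11 : L ^ (a + 2) = L ^ (a + 1) * L := by
    rw [← Real.rpow_add_one hL0.ne']
    congr 1
    ring
  calc (4 * β ^ 2 * C * L ^ (a + 1)) * ∑ n ∈ Icc 1 N, ((n : ℝ))⁻¹
      ≤ (4 * β ^ 2 * C * L ^ (a + 1)) * (2 * L) := mul_le_mul_of_nonneg_left hharm (by positivity)
    _ = (16 * C * β ^ 2 * L ^ (a + 2)) / 2 := by rw [h11]; ring
    _ ≤ 1 / 2 := by linarith

end Pool.Agent.P8H81.LP
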