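import Pool.Agent.P8H81.LP.Defs

set_option autoImplicit false

open MeasureTheory ProbabilityTheory Filter Finset

namespace Pool.Agent.P8H81.LP

variable {hc : (Fin 2 → ℤ) → ℝ}

theorem sum_Icc_range (N : ℕ) (f : ℕ → ℝ) : ∑ n ∈ Icc 1 N, f n = ∑ i ∈ range N, f (i + 1) := by
  induction N with
  | zero => simp
  | succ N ih => rw [Finset.sum_Icc_succ_top (by omega), ih, Finset.sum_range_succ]

theorem pos_cons {N : ℕ} (e : Fin 2 × Bool) (σ : Fin N → Fin 2 × Bool) (n : ℕ) :
    pos (Fin.cons e σ : Fin (N + 1) → Fin 2 × Bool) (n + 1) = stp e + pos σ n := by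
  unfold pos
  rw [Finset.sum_filter, Finset.sum_filter, Fin.sum_univ_succ]
  simp

theorem pos_zero {N : ℕ} (σ : Fin N → Fin 2 × Bool) : pos σ 0 = 0 := by
  unfold pos; simp

theorem taskPath : TaskPath := by
  intro N
  induction N with
  | zero => intro V x; simp [Wp, Wr]
  | succ N ih =>
    intro V x
    unfold Wp Wr
    rw [← (Fin.consEquiv (fun _ : Fin (N + 1) => Fin 2 × Bool)).sum_comp, Fintype.sum_prod_type,
      Finset.mul_sum, Finset.mul_sum]
    apply Finset.sum_congr rfl
    intro e _
    rw [← ih]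
    unfold Wp
    have h1 : ∀ σ : Fin N → Fin 2 × Bool,
        Real.exp (∑ n ∈ Icc 1 (N + 1), V n (x + pos ((Fin.consEquiv (fun _ : Fin (N + 1) => Fin 2 × Bool)) (e, σ)) n)) =
        Real.exp (V 1 (x + stp e)) *
          Real.exp (∑ n ∈ Icc 1 N, V (n + 1) (x + stp e + pos σ n)) := by
      intro σ
      rw [← Real.exp_add, sum_Icc_range, sum_Icc_range, Finset.sum_range_succ']
      congr 1
      rw [add_comm]
      congr 1
      · have : pos ((Fin.consEquiv (fun _ : Fin (N + 1) => Fin 2 × Bool)) (e, σ)) (0 + 1) = stp e := by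
          have := pos_cons e σ 0
          rw [pos_zero, add_zero] at this
          exact this
        rw [this]
      · apply Finset.sum_congr rfl
        intro i _
        have : pos ((Fin.consEquiv (fun _ : Fin (N + 1) => Fin 2 × Bool)) (e, σ)) (i + 1 + 1) =
            stp e + pos σ (i + 1) := pos_cons e σ (i + 1)
        rw [this, show x + (stp e + pos σ (i + 1)) = x + stp e + pos σ (i + 1) from
          (add_assoc _ _ _).symm]
    simp only [h1]
    rw [← Finset.mul_sum, pow_succ, mul_inv]
    ring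

end Pool.Agent.P8H81.LP
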