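import Pool.Agent.P8H81.LP.Defs
import Pool.Agent.H87R3.CP.TaskES

/-! Project H111-CP, task VAR (helper349). -/

set_option autoImplicit false

open MeasureTheory ProbabilityTheory Filter Finset

namespace Pool.Agent.P8H81.LP.VarAux

variable {hc : (Fin 2 → ℤ) → ℝ}

theorem meas_update {S : Type} [MeasurableSpace S] (k : ℕ) :
    Measurable (fun p : (ℕ → S) × S => Function.update p.1 k p.2) := by
  rw [measurable_pi_iff]
  intro n
  by_cases h : n = k
  · subst h
    simpa using measurable_snd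
  · simp only [Function.update_of_ne h]
    exact (measurable_pi_apply n).comp measurable_fst

theorem map_update {S : Type} [MeasurableSpace S] (μ : Measure S) [IsProbabilityMeasure μ]
    (k : ℕ) :
    Measure.map (fun p : (ℕ → S) × S => Function.update p.1 k p.2)
      ((Measure.infinitePi (fun _ : ℕ => μ)).prod μ) = Measure.infinitePi (fun _ : ℕ => μ) := by
  apply Measure.eq_infinitePi
  intro s t ht
  rw [Measure.map_apply (meas_update k)
    (MeasurableSet.pi s.countable_toSet (fun i _ => ht i))]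
  by_cases hk : k ∈ s
  · have h1 : (fun p : (ℕ → S) × S => Function.update p.1 k p.2) ⁻¹' (Set.pi (s : Set ℕ) t) =
        (Set.pi ((s.erase k : Finset ℕ) : Set ℕ) t) ×ˢ (t k) := by
      ext ⟨w, x⟩
      simp only [Set.mem_preimage, Set.mem_pi, Finset.mem_coe, Set.mem_prod, Finset.mem_erase]
      constructor
      · intro h
        refine ⟨fun i hi => ?_, ?_⟩
        · have := h i hi.2
          rwa [Function.update_of_ne hi.1] at this
        · have := h k hk
          rwa [Function.update_self] at this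
      · rintro ⟨h, h'⟩ i hi
        by_cases hik : i = k
        · subst hik
          rw [Function.update_self]
          exact h'
        · rw [Function.update_of_ne hik]
          exact h i ⟨hik, hi⟩
    rw [h1, Measure.prod_prod, Measure.infinitePi_pi _ (fun i _ => ht i),
      Finset.prod_erase_mul _ _ hk]
  · have h1 : (fun p : (ℕ → S) × S => Function.update p.1 k p.2) ⁻¹' (Set.pi (s : Set ℕ) t) =
        (Set.pi (s : Set ℕ) t) ×ˢ (Set.univ : Set S) := by
      ext ⟨w, x⟩
      simp only [Set.mem_preimage, Set.mem_pi, Finset.mem_coe, Set.mem_prod, Set.mem_univ,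
        and_true]
      constructor
      · intro h i hi
        have := h i hi
        rwa [Function.update_of_ne (ne_of_mem_of_not_mem hi hk)] at this
      · intro h i hi
        rw [Function.update_of_ne (ne_of_mem_of_not_mem hi hk)]
        exact h i hi
    rw [h1, Measure.prod_prod, Measure.infinitePi_pi _ (fun i _ => ht i), measure_univ, mul_one]

/-- the dominating function -/
noncomputable def HH (v : ℝ) : ℝ :=
  2 * Real.exp v + 2 * Real.exp (-v) + Real.exp (2 * v) + 1

theorem sq_le_exp (v : ℝ) : v ^ 2 ≤ 2 * Real.exp v + 2 * Real.exp (-v) := by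
  rcases le_total 0 v with h | h
  · have h1 := Real.quadratic_le_exp_of_nonneg h
    have h2 := Real.add_one_le_exp (-v)
    linarith [Real.exp_pos (-v)]
  · have h1 := Real.quadratic_le_exp_of_nonneg (neg_nonneg.2 h)
    have h2 := Real.add_one_le_exp v
    have h3 : (-v) ^ 2 = v ^ 2 := by ring
    rw [h3] at h1
    linarith [Real.exp_pos v]

theorem log_sq {ι : Type} (s : Finset ι) (p v : ι → ℝ) (hp : ∀ i ∈ s, 0 ≤ p i)
    (hp1 : ∑ i ∈ s, p i = 1) :
    (Real.log (∑ i ∈ s, p i * Real.exp (v i))) ^ 2 ≤ ∑ i ∈ s, p i * HH (v i) := by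
  obtain ⟨R, hR⟩ : ∃ R, R = ∑ i ∈ s, p i * Real.exp (v i) := ⟨_, rfl⟩
  rw [← hR]
  have hJ : Real.exp (∑ i ∈ s, p i * v i) ≤ R := by
    have := convexOn_exp.map_sum_le hp hp1 (p := v) (fun i _ => Set.mem_univ _)
    simp only [smul_eq_mul] at this
    rw [hR]
    exact this
  have hRpos : 0 < R := (Real.exp_pos _).trans_le hJ
  have hJ' : ∑ i ∈ s, p i * v i ≤ Real.log R := by
    rw [Real.le_log_iff_exp_le hRpos]
    exact hJ
  have hlog := Real.log_le_sub_one_of_pos hRpos
  have hsqc : ConvexOn ℝ Set.univ (fun x : ℝ => x ^ 2) := Even.convexOn_pow (by decide)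
  have hA : (∑ i ∈ s, p i * v i) ^ 2 ≤ ∑ i ∈ s, p i * (v i) ^ 2 := by
    have := hsqc.map_sum_le hp hp1 (p := v) (fun i _ => Set.mem_univ _)
    simp only [smul_eq_mul] at this
    exact this
  have hB : (R - 1) ^ 2 ≤ ∑ i ∈ s, p i * (Real.exp (v i) - 1) ^ 2 := by
    have := hsqc.map_sum_le hp hp1 (p := fun i => Real.exp (v i) - 1) (fun i _ => Set.mem_univ _)
    simp only [smul_eq_mul] at this
    have h2 : ∑ i ∈ s, p i * (Real.exp (v i) - 1) = R - 1 := by
      simp_rw [mul_sub, mul_one]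
      rw [Finset.sum_sub_distrib, hp1, hR]
    rw [h2] at this
    exact this
  have hC : (Real.log R) ^ 2 ≤ (∑ i ∈ s, p i * v i) ^ 2 + (R - 1) ^ 2 := by
    rcases le_total 0 (Real.log R) with h | h
    · have h3 : (Real.log R) ^ 2 ≤ (R - 1) ^ 2 := pow_le_pow_left₀ h hlog 2
      linarith [sq_nonneg (∑ i ∈ s, p i * v i)]
    · have h3 : (Real.log R) ^ 2 ≤ (∑ i ∈ s, p i * v i) ^ 2 := by nlinarith
      linarith [sq_nonneg (R - 1)]
  refine hC.trans ((add_le_add hA hB).trans ?_)
  rw [← Finset.sum_add_distrib]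
  apply Finset.sum_le_sum
  intro i hi
  rw [← mul_add]
  apply mul_le_mul_of_nonneg_left _ (hp i hi)
  unfold HH
  have h4 := sq_le_exp (v i)
  have h5 : Real.exp (2 * v i) = Real.exp (v i) ^ 2 := by
    rw [sq, ← Real.exp_add]
    congr 1
    ring
  rw [h5]
  nlinarith [Real.exp_pos (v i)]

theorem meas_LW {μ : Measure ((Fin 2 → ℤ) → ℝ)} (hInt : TaskInt) (hμ : Good hc μ) (β : ℝ) (N : ℕ) :
    Measurable (LW β N) := Real.measurable_log.comp ((hInt μ hμ β N).1 0)

/-- the Gibbs weights with slice `k` neutralised -/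
noncomputable def EE (β : ℝ) (N k : ℕ) (w : ℕ → (Fin 2 → ℤ) → ℝ) (σ : Fin N → Fin 2 × Bool) : ℝ :=
  Real.exp (∑ n ∈ Icc 1 N, Vb β (Function.update w k (fun _ => β / 2)) n (0 + pos σ n))

theorem log_diff (hPath : TaskPath) {β : ℝ} {N k : ℕ} (hk : k ∈ Icc 1 N)
    (w : ℕ → (Fin 2 → ℤ) → ℝ) (s : (Fin 2 → ℤ) → ℝ) :
    LW β N (Function.update w k s) - LW β N (Function.update w k (fun _ => β / 2)) =
      Real.log (∑ σ : Fin N → Fin 2 × Bool, EE β N k w σ / (∑ σ', EE β N k w σ') *
        Real.exp (β * s (0 + pos σ k) - β ^ 2 / 2)) := by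
  have hZpos : 0 < ∑ σ' : Fin N → Fin 2 × Bool, EE β N k w σ' :=
    Finset.sum_pos (fun σ _ => Real.exp_pos _) ⟨fun _ => (0, true), Finset.mem_univ _⟩
  have h6 : (0 : ℝ) < ((4 : ℝ) ^ N)⁻¹ := by positivity
  have hW0 : W β N 0 (Function.update w k (fun _ => β / 2)) =
      ((4 : ℝ) ^ N)⁻¹ * ∑ σ : Fin N → Fin 2 × Bool, EE β N k w σ := by
    unfold W
    rw [← hPath]
    rfl
  have hterm : ∀ σ : Fin N → Fin 2 × Bool,
      Real.exp (∑ n ∈ Icc 1 N, Vb β (Function.update w k s) n (0 + pos σ n)) =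
        EE β N k w σ * Real.exp (β * s (0 + pos σ k) - β ^ 2 / 2) := by
    intro σ
    unfold EE
    rw [← Real.exp_add]
    congr 1
    rw [← Finset.add_sum_erase _ _ hk, ← Finset.add_sum_erase (Icc 1 N)
      (fun n => Vb β (Function.update w k (fun _ => β / 2)) n (0 + pos σ n)) hk]
    have h7 : ∑ n ∈ (Icc 1 N).erase k, Vb β (Function.update w k s) n (0 + pos σ n) =
        ∑ n ∈ (Icc 1 N).erase k,
          Vb β (Function.update w k (fun _ => β / 2)) n (0 + pos σ n) := by
      apply Finset.sum_congr rfl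
      intro n hn
      have hnk : n ≠ k := Finset.ne_of_mem_erase hn
      unfold Vb
      rw [Function.update_of_ne hnk, Function.update_of_ne hnk]
    rw [h7]
    unfold Vb
    rw [Function.update_self, Function.update_self]
    ring
  have hW1 : W β N 0 (Function.update w k s) =
      ((4 : ℝ) ^ N)⁻¹ * ∑ σ : Fin N → Fin 2 × Bool,
        EE β N k w σ * Real.exp (β * s (0 + pos σ k) - β ^ 2 / 2) := by
    unfold W
    rw [← hPath]
    unfold Wp
    rw [Finset.sum_congr rfl (fun σ _ => hterm σ)]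
  have hZ1pos : 0 < ∑ σ : Fin N → Fin 2 × Bool,
        EE β N k w σ * Real.exp (β * s (0 + pos σ k) - β ^ 2 / 2) :=
    Finset.sum_pos (fun σ _ => mul_pos (Real.exp_pos _) (Real.exp_pos _))
      ⟨fun _ => (0, true), Finset.mem_univ _⟩
  unfold LW
  rw [hW0, hW1, ← Real.log_div (mul_pos h6 hZ1pos).ne' (mul_pos h6 hZpos).ne']
  congr 1
  rw [mul_div_mul_left _ _ h6.ne', Finset.sum_div]
  apply Finset.sum_congr rfl
  intro σ _
  ring

theorem diff_sq (hPath : TaskPath) {β : ℝ} {N k : ℕ} (hk : k ∈ Icc 1 N)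
    (w : ℕ → (Fin 2 → ℤ) → ℝ) (s : (Fin 2 → ℤ) → ℝ) :
    (LW β N (Function.update w k s) - LW β N (Function.update w k (fun _ => β / 2))) ^ 2 ≤
      ∑ σ : Fin N → Fin 2 × Bool, EE β N k w σ / (∑ σ', EE β N k w σ') *
        HH (β * s (0 + pos σ k) - β ^ 2 / 2) := by
  have hZpos : 0 < ∑ σ' : Fin N → Fin 2 × Bool, EE β N k w σ' :=
    Finset.sum_pos (fun σ _ => Real.exp_pos _) ⟨fun _ => (0, true), Finset.mem_univ _⟩
  rw [log_diff hPath hk]
  apply log_sq
  · intro σ _
    exact div_nonneg (Real.exp_pos _).le hZpos.le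
  · rw [← Finset.sum_div]
    exact div_self hZpos.ne'

theorem int_HH {μ : Measure ((Fin 2 → ℤ) → ℝ)} (hμ : Good hc μ) (β : ℝ) (x : Fin 2 → ℤ) :
    Integrable (fun s : (Fin 2 → ℤ) → ℝ => HH (β * s x - β ^ 2 / 2)) μ ∧
      ∫ s, HH (β * s x - β ^ 2 / 2) ∂μ = 3 + 3 * Real.exp (β ^ 2) := by
  have := hμ.prob
  have h : ∀ s : (Fin 2 → ℤ) → ℝ, HH (β * s x - β ^ 2 / 2) =
      2 * Real.exp (-(β ^ 2 / 2)) * Real.exp (β * s x) +
        2 * Real.exp (β ^ 2 / 2) * Real.exp ((-β) * s x) +
          Real.exp (-β ^ 2) * Real.exp ((2 * β) * s x) + 1 := by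
    intro s
    unfold HH
    rw [mul_assoc, mul_assoc, ← Real.exp_add, ← Real.exp_add, ← Real.exp_add]
    congr 1
    congr 1
    · congr 1
      · congr 2
        ring
      · congr 2
        ring
    · congr 1
      ring
  simp_rw [h]
  have i1 := (hμ.int β x).const_mul (2 * Real.exp (-(β ^ 2 / 2)))
  have i2 := (hμ.int (-β) x).const_mul (2 * Real.exp (β ^ 2 / 2))
  have i3 := (hμ.int (2 * β) x).const_mul (Real.exp (-β ^ 2))
  have i4 : Integrable (fun _ : (Fin 2 → ℤ) → ℝ => (1 : ℝ)) μ := integrable_const 1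
  refine ⟨((i1.add i2).add i3).add i4, ?_⟩
  have e1 : ∫ s : (Fin 2 → ℤ) → ℝ, (2 * Real.exp (-(β ^ 2 / 2)) * Real.exp (β * s x) +
        2 * Real.exp (β ^ 2 / 2) * Real.exp ((-β) * s x) +
          Real.exp (-β ^ 2) * Real.exp ((2 * β) * s x) + 1) ∂μ =
      ∫ s : (Fin 2 → ℤ) → ℝ, (2 * Real.exp (-(β ^ 2 / 2)) * Real.exp (β * s x) +
        2 * Real.exp (β ^ 2 / 2) * Real.exp ((-β) * s x) +
          Real.exp (-β ^ 2) * Real.exp ((2 * β) * s x)) ∂μ + ∫ _, (1 : ℝ) ∂μ :=
    integral_add ((i1.add i2).add i3) i4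
  have e2 : ∫ s : (Fin 2 → ℤ) → ℝ, (2 * Real.exp (-(β ^ 2 / 2)) * Real.exp (β * s x) +
        2 * Real.exp (β ^ 2 / 2) * Real.exp ((-β) * s x) +
          Real.exp (-β ^ 2) * Real.exp ((2 * β) * s x)) ∂μ =
      ∫ s : (Fin 2 → ℤ) → ℝ, (2 * Real.exp (-(β ^ 2 / 2)) * Real.exp (β * s x) +
        2 * Real.exp (β ^ 2 / 2) * Real.exp ((-β) * s x)) ∂μ +
          ∫ s : (Fin 2 → ℤ) → ℝ, Real.exp (-β ^ 2) * Real.exp ((2 * β) * s x) ∂μ :=
    integral_add (i1.add i2) i3
  rw [e1, e2, integral_add i1 i2, integral_const_mul, integral_const_mul, integral_const_mul, hμ.mgf, hμ.mgf, hμ.mgf,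
    integral_const]
  simp only [probReal_univ, smul_eq_mul, mul_one]
  rw [mul_assoc, mul_assoc, ← Real.exp_add, ← Real.exp_add, ← Real.exp_add]
  rw [show -(β ^ 2 / 2) + β ^ 2 / 2 = 0 by ring, show β ^ 2 / 2 + (-β) ^ 2 / 2 = β ^ 2 by ring,
    show -β ^ 2 + (2 * β) ^ 2 / 2 = β ^ 2 by ring, Real.exp_zero]
  ring

theorem lint_bound (hPath : TaskPath) (hInt : TaskInt) {μ : Measure ((Fin 2 → ℤ) → ℝ)}
    (hμ : Good hc μ) (β : ℝ) {N k : ℕ} (hk : k ∈ Icc 1 N) :
    ∫⁻ w, ENNReal.ofReal
        ((LW β N w - LW β N (Function.update w k (fun _ => β / 2))) ^ 2) ∂(PP μ) ≤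
      ENNReal.ofReal (3 + 3 * Real.exp (β ^ 2)) := by
  have := hμ.prob
  have hmL := meas_LW hInt hμ β N
  have hmu : Measurable fun w : ℕ → (Fin 2 → ℤ) → ℝ =>
      Function.update w k (fun _ => β / 2 : (Fin 2 → ℤ) → ℝ) :=
    (meas_update k).comp (measurable_id.prodMk measurable_const)
  have hmF : Measurable fun w : ℕ → (Fin 2 → ℤ) → ℝ => ENNReal.ofReal
      ((LW β N w - LW β N (Function.update w k (fun _ => β / 2))) ^ 2) :=
    ((hmL.sub (hmL.comp hmu)).pow_const 2).ennreal_ofReal
  have hPP : PP μ = Measure.map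
      (fun p : (ℕ → (Fin 2 → ℤ) → ℝ) × ((Fin 2 → ℤ) → ℝ) => Function.update p.1 k p.2)
      ((PP μ).prod μ) := (map_update μ k).symm
  have : IsProbabilityMeasure (PP μ) := by
    unfold PP
    infer_instance
  conv_lhs => rw [hPP]
  rw [lintegral_map hmF (meas_update k), lintegral_prod]
  · calc ∫⁻ w, ∫⁻ s, ENNReal.ofReal ((LW β N (Function.update w k s) -
          LW β N (Function.update (Function.update w k s) k (fun _ => β / 2))) ^ 2) ∂μ ∂(PP μ)
        ≤ ∫⁻ w, ENNReal.ofReal (3 + 3 * Real.exp (β ^ 2)) ∂(PP μ) := by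
          apply lintegral_mono
          intro w
          simp only [Function.update_idem]
          have hZpos : 0 < ∑ σ' : Fin N → Fin 2 × Bool, EE β N k w σ' :=
            Finset.sum_pos (fun σ _ => Real.exp_pos _) ⟨fun _ => (0, true), Finset.mem_univ _⟩
          have hint : Integrable (fun s : (Fin 2 → ℤ) → ℝ => ∑ σ : Fin N → Fin 2 × Bool,
              EE β N k w σ / (∑ σ', EE β N k w σ') *
                HH (β * s (0 + pos σ k) - β ^ 2 / 2)) μ :=
            integrable_finsetSum _ fun σ _ => ((int_HH hμ β _).1).const_mul _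
          calc ∫⁻ s, ENNReal.ofReal ((LW β N (Function.update w k s) -
                LW β N (Function.update w k (fun _ => β / 2))) ^ 2) ∂μ
              ≤ ∫⁻ s, ENNReal.ofReal (∑ σ : Fin N → Fin 2 × Bool,
                  EE β N k w σ / (∑ σ', EE β N k w σ') *
                    HH (β * s (0 + pos σ k) - β ^ 2 / 2)) ∂μ := by
                apply lintegral_mono
                intro s
                exact ENNReal.ofReal_le_ofReal (diff_sq hPath hk w s)
            _ = ENNReal.ofReal (∫ s, ∑ σ : Fin N → Fin 2 × Bool,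
                  EE β N k w σ / (∑ σ', EE β N k w σ') *
                    HH (β * s (0 + pos σ k) - β ^ 2 / 2) ∂μ) := by
                rw [ofReal_integral_eq_lintegral_ofReal hint]
                refine Filter.Eventually.of_forall fun s => ?_
                exact (sq_nonneg _).trans (diff_sq hPath hk w s)
            _ = ENNReal.ofReal (3 + 3 * Real.exp (β ^ 2)) := by
                congr 1
                rw [integral_finsetSum _ fun σ _ => ((int_HH hμ β _).1).const_mul _]
                simp_rw [integral_const_mul, (int_HH hμ β _).2]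
                rw [← Finset.sum_mul, ← Finset.sum_div, div_self hZpos.ne', one_mul]
      _ = _ := by
          rw [lintegral_const, measure_univ, mul_one]
  · exact (hmF.comp (meas_update k)).aemeasurable

end Pool.Agent.P8H81.LP.VarAux

namespace Pool.Agent.P8H81.LP

variable {hc : (Fin 2 → ℤ) → ℝ}

open VarAux

theorem taskVar : TaskVar := by
  intro hPath hInt hc μ hμ β hβ N
  have := hμ.prob
  have hI := hInt μ hμ β N
  have hmL := meas_LW hInt hμ β N
  have hmu : ∀ k : ℕ, Measurable fun w : ℕ → (Fin 2 → ℤ) → ℝ =>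
      Function.update w k (fun _ => β / 2 : (Fin 2 → ℤ) → ℝ) := fun k =>
    (meas_update k).comp (measurable_id.prodMk measurable_const)
  have hmg : ∀ k : ℕ, Measurable fun w : ℕ → (Fin 2 → ℤ) → ℝ =>
      LW β N (Function.update w k (fun _ => β / 2)) := fun k => hmL.comp (hmu k)
  -- the difference is square integrable
  have hdiff : ∀ k ∈ Icc 1 N, Integrable (fun w =>
      (LW β N w - LW β N (Function.update w k (fun _ => β / 2))) ^ 2) (PP μ) := by
    intro k hk
    refine ⟨((hmL.sub (hmg k)).pow_const 2).aestronglyMeasurable, ?_⟩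
    rw [hasFiniteIntegral_iff_ofReal (Filter.Eventually.of_forall fun w => sq_nonneg _)]
    exact (lint_bound hPath hInt hμ β hk).trans_lt ENNReal.ofReal_lt_top
  have hmem : ∀ k ∈ Icc 1 N, MemLp (fun w =>
      LW β N w - LW β N (Function.update w k (fun _ => β / 2))) 2 (PP μ) := by
    intro k hk
    exact (memLp_two_iff_integrable_sq (hmL.sub (hmg k)).aestronglyMeasurable).2 (hdiff k hk)
  have hvar := Pool.Agent.H87R3.CP.taskES ((Fin 2 → ℤ) → ℝ) μ N (LW β N)
    (fun k w => LW β N (Function.update w k (fun _ => β / 2))) ?_ hmL hI.2.2.2 ?_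
  · refine hvar.trans ?_
    have hb : ∀ k ∈ Icc 1 N, ∫ w, (LW β N w -
        LW β N (Function.update w k (fun _ => β / 2))) ^ 2 ∂(PP μ) ≤
          3 + 3 * Real.exp (β ^ 2) := by
      intro k hk
      rw [integral_eq_lintegral_of_nonneg_ae (Filter.Eventually.of_forall fun w => sq_nonneg _)
        (hdiff k hk).1]
      refine ENNReal.toReal_le_of_le_ofReal (by positivity) ?_
      exact lint_bound hPath hInt hμ β hk
    calc ∑ k ∈ Icc 1 N, ∫ w, (LW β N w -
          LW β N (Function.update w k (fun _ => β / 2))) ^ 2 ∂(PP μ)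
        ≤ ∑ k ∈ Icc 1 N, (3 + 3 * Real.exp (β ^ 2)) := Finset.sum_le_sum hb
      _ = (3 + 3 * Real.exp (β ^ 2)) * N := by
          rw [Finset.sum_const, Nat.card_Icc, nsmul_eq_mul]
          simp only [Nat.add_sub_cancel]
          ring
  · intro w w' hww
    unfold LW W
    rw [← hPath, ← hPath]
    unfold Wp
    congr 2
    apply Finset.sum_congr rfl
    intro σ _
    congr 1
    apply Finset.sum_congr rfl
    intro n hn
    unfold Vb
    rw [hww n hn]
  · intro k hk
    refine ⟨hmg k, ?_, ?_⟩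
    · have h1 := hI.2.2.2.sub (hmem k hk)
      have h2 : (LW β N - fun w => LW β N w - LW β N (Function.update w k (fun _ => β / 2))) =
          fun w => LW β N (Function.update w k (fun _ => β / 2)) := by
        ext w
        simp only [Pi.sub_apply]
        ring
      rw [h2] at h1
      exact h1
    · intro w s
      simp only [Function.update_idem]

end Pool.Agent.P8H81.LP
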