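import Pool.Agent.P8H81.LP.Path
import Pool.Agent.P8H81.LP.Lim
import Pool.Agent.P8H81.LP.Good
import Pool.Agent.P8H81.LP.Int
import Pool.Agent.P8H81.LP.Var
import Pool.Agent.P8H81.LP.Sup
import Pool.Agent.P8H81.LP.AS
import Pool.Agent.P8H81.LP.Mom
import Pool.Agent.P8H81.LP.Law
import Pool.Agent.P8H7.LP.Zero
import Pool.Agent.P8H46.LP.Ker
import Pool.Agent.P8H57.LP.Khas
import Pool.Agent.P8H75.LP.Sum

/-! Project LP: existence of the free energy and the upper bound of `-p(β)`. -/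

set_option autoImplicit false

open MeasureTheory ProbabilityTheory Filter Finset

namespace Pool.Agent.P8H81.LP

theorem upper (a : ℝ) (ha : -1 < a) (h : (Fin 2 → ℤ) → ℝ)
    (hnn : ∀ x, 0 ≤ h x)
    (hdec' : Tendsto (fun x : Fin 2 → ℤ => h x * ((x 0 : ℝ) ^ 2 + (x 1 : ℝ) ^ 2) /
      (Real.log (√((x 0 : ℝ) ^ 2 + (x 1 : ℝ) ^ 2))) ^ a) cofinite (nhds 1))
    (μ : Measure ((Fin 2 → ℤ) → ℝ)) (good : Good h μ) :
    ∃ (p : ℝ → ℝ) (c b₀ : ℝ), 0 < c ∧ 0 < b₀ ∧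
      (∀ β : ℝ, 0 < β → p β ≤ 0 ∧
        Tendsto (fun N : ℕ => (∫ w, LW β N w ∂(PP μ)) / (N : ℝ)) atTop (nhds (p β)) ∧
        ∀ᵐ w ∂(PP μ), Tendsto (fun N : ℕ => LW β N w / (N : ℝ)) atTop (nhds (p β))) ∧
      ∀ β : ℝ, 0 < β → β < b₀ → -p β ≤ Real.exp (-(c / β) ^ (2 / (a + 2))) := by
  have hPath : TaskPath := taskPath
  have hInt : TaskInt := IntAux.taskInt hPath
  have hSup : TaskSup := SupAux.taskSup
  have hVar := taskVar hPath hInt μ good
  have hl := taskLim hSup hPath hInt μ good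
  choose p hp0 hpN hp using hl
  classical
  obtain ⟨K, hK, hmom⟩ := taskMom Pool.Agent.P8H46.LP.ker
    Pool.Agent.P8H75.LP.taskSum Pool.Agent.P8H57.LP.taskKhas hInt a ha h hnn hdec'
  obtain ⟨c, b₀, hc, hb, hb1, hfin⟩ := Pool.Agent.P8H57.LP.taskFin a K (3 + 3 * Real.exp 1) ha hK
    (by positivity)
  refine ⟨fun β => if hβ : 0 < β then p β hβ else 0, c, b₀, hc, hb, ?_, ?_⟩
  · intro β hβ
    simp only [dif_pos hβ]
    exact ⟨hp0 β hβ, hp β hβ, ASAux.taskAS hPath hInt μ good β hβ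
      ⟨3 + 3 * Real.exp (β ^ 2), by positivity, hVar β hβ⟩ (p β hβ) (hp β hβ)⟩
  · intro β hβ hβ2
    simp only [dif_pos hβ]
    obtain ⟨N, hN, hN1, hN2⟩ := hfin β hβ hβ2
    have h3 := Pool.Agent.P8H7.LP.taskZero hInt μ good β (3 + 3 * Real.exp 1) hβ (by positivity) N hN
      (hmom μ good β hβ N hN hN1) ((hVar β hβ N).trans (by
        refine mul_le_mul_of_nonneg_right ?_ (Nat.cast_nonneg _)
        have h4 : Real.exp (β ^ 2) ≤ Real.exp 1 := Real.exp_le_exp.2 (by nlinarith)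
        linarith))
    have h5 := hpN β hβ N hN
    have h6 : (0 : ℝ) < N := by exact_mod_cast hN
    refine le_trans ?_ hN2
    have h7 := div_le_div_of_nonneg_right h3 h6.le
    rw [neg_div] at h7
    linarith

end Pool.Agent.P8H81.LP
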